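import Pool.Agent.H2.SPH.Mon

/-!
# [H2 UF BRD] Braid relations for products of commuting generators

`alt x y n = x * y * x * ...` (`n` factors), `H52/PAG/Defs.lean`. All in an arbitrary monoid.
`alt_mul`: induction on `n` (for both orders at once): `alt (x₁ * x₂) (y₁ * y₂) (n + 1) = x₁ * x₂ * (alt y₁ x₁ n * alt y₂ x₂ n)` and `x₂` commutes with `alt y₁ x₁ n` (a product of `y₁`, `x₁`).
`br4`: `x₁ x₂ c x₁ x₂ c = c x₁ x₂ c x₁ x₂`: `x₁ (x₂ c x₂) x₁ c = x₁ c x₂ (c x₁ c) = x₁ c x₂ x₁ c x₁ = (x₁ c x₁) x₂ c x₁ = c x₁ c x₂ c x₁ = c x₁ x₂ c x₂ x₁`. Then `alt _ _ 4` is `x c x c` with `x = x₁ x₂`: multiply: `(x c x c) `: `x c x = x₁ x₂ c x₁ x₂`; so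
`x c x c = x₁ x₂ c x₁ x₂ c = c x₁ x₂ c x₁ x₂ = c x c x`.
`br5`: in the braid monoid of the path `b₁ - c₁ - b₂ - c₂`: both sides are words for the half twist of length ten: `b₁ b₂ c₁ c₂ b₁ b₂ c₁ c₂ b₁ b₂ = c₁ c₂ b₁ b₂ c₁ c₂ b₁ b₂ c₁ c₂`. Find a chain of moves by computer.
-/

set_option autoImplicit false

namespace Pool.Agent.H2.UF

open Pool.Agent.H52.PAG

variable {N : Type*} [Monoid N]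

theorem alt_mul {x₁ x₂ y₁ y₂ : N} (h1 : Commute x₁ x₂) (h2 : Commute x₁ y₂) (h3 : Commute y₁ x₂) (h4 : Commute y₁ y₂) (n : ℕ) :
    alt (x₁ * x₂) (y₁ * y₂) n = alt x₁ y₁ n * alt x₂ y₂ n := by
  have key : ∀ n : ℕ, (alt (x₁ * x₂) (y₁ * y₂) n = alt x₁ y₁ n * alt x₂ y₂ n ∧
      alt (y₁ * y₂) (x₁ * x₂) n = alt y₁ x₁ n * alt y₂ x₂ n) ∧
      Commute x₂ (alt y₁ x₁ n) ∧ Commute x₂ (alt x₁ y₁ n) ∧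
      Commute y₂ (alt x₁ y₁ n) ∧ Commute y₂ (alt y₁ x₁ n) := by
    intro n
    induction n with
    | zero =>
      simp only [alt, mul_one]
      exact ⟨⟨trivial, trivial⟩, Commute.one_right _, Commute.one_right _, Commute.one_right _,
        Commute.one_right _⟩
    | succ n ih =>
      obtain ⟨⟨i1, i2⟩, i3, i4, i5, i6⟩ := ih
      simp only [alt]
      refine ⟨⟨?_, ?_⟩, h3.symm.mul_right i4, h1.symm.mul_right i3, h2.symm.mul_right i6,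
        h4.symm.mul_right i5⟩
      · rw [i2, mul_assoc x₁, ← mul_assoc x₂ (alt y₁ x₁ n), i3.eq]
        simp only [mul_assoc]
      · rw [i1, mul_assoc y₁, ← mul_assoc y₂ (alt x₁ y₁ n), i5.eq]
        simp only [mul_assoc]
  exact (key n).1.1

theorem br4 {x₁ x₂ c : N} (h1 : x₁ * c * x₁ = c * x₁ * c) (h2 : x₂ * c * x₂ = c * x₂ * c) (h : Commute x₁ x₂) :
    alt (x₁ * x₂) c 4 = alt c (x₁ * x₂) 4 := by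
  have k0 : ∀ t, x₁ * (x₂ * t) = x₂ * (x₁ * t) := fun t => by
    rw [← mul_assoc, ← mul_assoc, h.eq]
  have k0s : ∀ t, x₂ * (x₁ * t) = x₁ * (x₂ * t) := fun t => by
    rw [← mul_assoc, ← mul_assoc, h.symm.eq]
  have r0 : ∀ t, x₁ * (c * (x₁ * t)) = c * (x₁ * (c * t)) := fun t => by
    rw [← mul_assoc x₁, ← mul_assoc (x₁ * c), h1]
    simp only [mul_assoc]
  have r0s : ∀ t, c * (x₁ * (c * t)) = x₁ * (c * (x₁ * t)) := fun t => by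
    rw [← mul_assoc c, ← mul_assoc (c * x₁), ← h1]
    simp only [mul_assoc]
  have r1 : ∀ t, x₂ * (c * (x₂ * t)) = c * (x₂ * (c * t)) := fun t => by
    rw [← mul_assoc x₂, ← mul_assoc (x₂ * c), h2]
    simp only [mul_assoc]
  have r1s : ∀ t, c * (x₂ * (c * t)) = x₂ * (c * (x₂ * t)) := fun t => by
    rw [← mul_assoc c, ← mul_assoc (c * x₂), ← h2]
    simp only [mul_assoc]
  have key : x₁ * (x₂ * (c * (x₁ * (x₂ * (c * 1))))) =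
      c * (x₁ * (x₂ * (c * (x₁ * (x₂ * 1))))) := by
    calc x₁ * (x₂ * (c * (x₁ * (x₂ * (c * 1)))))
      _ = x₂ * (x₁ * (c * (x₁ * (x₂ * (c * 1))))) := by rw [k0 (c * (x₁ * (x₂ * (c * 1))))]
      _ = x₂ * (c * (x₁ * (c * (x₂ * (c * 1))))) := by rw [r0 (x₂ * (c * 1))]
      _ = x₂ * (c * (x₁ * (x₂ * (c * (x₂ * 1))))) := by rw [r1s 1]
      _ = x₂ * (c * (x₂ * (x₁ * (c * (x₂ * 1))))) := by rw [k0 (c * (x₂ * 1))]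
      _ = c * (x₂ * (c * (x₁ * (c * (x₂ * 1))))) := by rw [r1 (x₁ * (c * (x₂ * 1)))]
      _ = c * (x₂ * (x₁ * (c * (x₁ * (x₂ * 1))))) := by rw [r0s (x₂ * 1)]
      _ = c * (x₁ * (x₂ * (c * (x₁ * (x₂ * 1))))) := by rw [k0s (c * (x₁ * (x₂ * 1)))]
  have e1 : alt (x₁ * x₂) c 4 = x₁ * (x₂ * (c * (x₁ * (x₂ * (c * 1))))) := by
    simp only [alt, mul_assoc]
  have e2 : alt c (x₁ * x₂) 4 = c * (x₁ * (x₂ * (c * (x₁ * (x₂ * 1))))) := by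
    simp only [alt, mul_assoc]
  rw [e1, e2, key]

theorem br5 {b₁ c₁ b₂ c₂ : N} (h1 : b₁ * c₁ * b₁ = c₁ * b₁ * c₁) (h2 : c₁ * b₂ * c₁ = b₂ * c₁ * b₂)
    (h3 : b₂ * c₂ * b₂ = c₂ * b₂ * c₂) (h4 : Commute b₁ b₂) (h5 : Commute b₁ c₂) (h6 : Commute c₁ c₂) :
    alt (b₁ * b₂) (c₁ * c₂) 5 = alt (c₁ * c₂) (b₁ * b₂) 5 := by
  have k0 : ∀ t, b₁ * (b₂ * t) = b₂ * (b₁ * t) := fun t => by
    rw [← mul_assoc, ← mul_assoc, h4.eq]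
  have k0s : ∀ t, b₂ * (b₁ * t) = b₁ * (b₂ * t) := fun t => by
    rw [← mul_assoc, ← mul_assoc, h4.symm.eq]
  have k1 : ∀ t, b₁ * (c₂ * t) = c₂ * (b₁ * t) := fun t => by
    rw [← mul_assoc, ← mul_assoc, h5.eq]
  have k1s : ∀ t, c₂ * (b₁ * t) = b₁ * (c₂ * t) := fun t => by
    rw [← mul_assoc, ← mul_assoc, h5.symm.eq]
  have k2 : ∀ t, c₁ * (c₂ * t) = c₂ * (c₁ * t) := fun t => by
    rw [← mul_assoc, ← mul_assoc, h6.eq]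
  have k2s : ∀ t, c₂ * (c₁ * t) = c₁ * (c₂ * t) := fun t => by
    rw [← mul_assoc, ← mul_assoc, h6.symm.eq]
  have r0 : ∀ t, b₁ * (c₁ * (b₁ * t)) = c₁ * (b₁ * (c₁ * t)) := fun t => by
    rw [← mul_assoc b₁, ← mul_assoc (b₁ * c₁), h1]
    simp only [mul_assoc]
  have r0s : ∀ t, c₁ * (b₁ * (c₁ * t)) = b₁ * (c₁ * (b₁ * t)) := fun t => by
    rw [← mul_assoc c₁, ← mul_assoc (c₁ * b₁), ← h1]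
    simp only [mul_assoc]
  have r1 : ∀ t, c₁ * (b₂ * (c₁ * t)) = b₂ * (c₁ * (b₂ * t)) := fun t => by
    rw [← mul_assoc c₁, ← mul_assoc (c₁ * b₂), h2]
    simp only [mul_assoc]
  have r1s : ∀ t, b₂ * (c₁ * (b₂ * t)) = c₁ * (b₂ * (c₁ * t)) := fun t => by
    rw [← mul_assoc b₂, ← mul_assoc (b₂ * c₁), ← h2]
    simp only [mul_assoc]
  have r2 : ∀ t, b₂ * (c₂ * (b₂ * t)) = c₂ * (b₂ * (c₂ * t)) := fun t => by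
    rw [← mul_assoc b₂, ← mul_assoc (b₂ * c₂), h3]
    simp only [mul_assoc]
  have r2s : ∀ t, c₂ * (b₂ * (c₂ * t)) = b₂ * (c₂ * (b₂ * t)) := fun t => by
    rw [← mul_assoc c₂, ← mul_assoc (c₂ * b₂), ← h3]
    simp only [mul_assoc]
  have key : b₁ * (b₂ * (c₁ * (c₂ * (b₁ * (b₂ * (c₁ * (c₂ * (b₁ * (b₂ * 1))))))))) =
      c₁ * (c₂ * (b₁ * (b₂ * (c₁ * (c₂ * (b₁ * (b₂ * (c₁ * (c₂ * 1))))))))) := by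
    calc b₁ * (b₂ * (c₁ * (c₂ * (b₁ * (b₂ * (c₁ * (c₂ * (b₁ * (b₂ * 1)))))))))
      _ = b₂ * (b₁ * (c₁ * (c₂ * (b₁ * (b₂ * (c₁ * (c₂ * (b₁ * (b₂ * 1))))))))) := by rw [k0 (c₁ * (c₂ * (b₁ * (b₂ * (c₁ * (c₂ * (b₁ * (b₂ * 1))))))))]
      _ = b₂ * (b₁ * (c₂ * (c₁ * (b₁ * (b₂ * (c₁ * (c₂ * (b₁ * (b₂ * 1))))))))) := by rw [k2 (b₁ * (b₂ * (c₁ * (c₂ * (b₁ * (b₂ * 1))))))]
      _ = b₂ * (c₂ * (b₁ * (c₁ * (b₁ * (b₂ * (c₁ * (c₂ * (b₁ * (b₂ * 1))))))))) := by rw [k1 (c₁ * (b₁ * (b₂ * (c₁ * (c₂ * (b₁ * (b₂ * 1)))))))]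
      _ = b₂ * (c₂ * (b₁ * (c₁ * (b₂ * (b₁ * (c₁ * (c₂ * (b₁ * (b₂ * 1))))))))) := by rw [k0 (c₁ * (c₂ * (b₁ * (b₂ * 1))))]
      _ = b₂ * (c₂ * (b₁ * (c₁ * (b₂ * (b₁ * (c₁ * (b₁ * (c₂ * (b₂ * 1))))))))) := by rw [k1s (b₂ * 1)]
      _ = b₂ * (c₂ * (b₁ * (c₁ * (b₂ * (c₁ * (b₁ * (c₁ * (c₂ * (b₂ * 1))))))))) := by rw [r0 (c₂ * (b₂ * 1))]
      _ = b₂ * (c₂ * (b₁ * (b₂ * (c₁ * (b₂ * (b₁ * (c₁ * (c₂ * (b₂ * 1))))))))) := by rw [r1 (b₁ * (c₁ * (c₂ * (b₂ * 1))))]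
      _ = b₂ * (c₂ * (b₂ * (b₁ * (c₁ * (b₂ * (b₁ * (c₁ * (c₂ * (b₂ * 1))))))))) := by rw [k0 (c₁ * (b₂ * (b₁ * (c₁ * (c₂ * (b₂ * 1))))))]
      _ = b₂ * (c₂ * (b₂ * (b₁ * (c₁ * (b₁ * (b₂ * (c₁ * (c₂ * (b₂ * 1))))))))) := by rw [k0s (c₁ * (c₂ * (b₂ * 1)))]
      _ = c₂ * (b₂ * (c₂ * (b₁ * (c₁ * (b₁ * (b₂ * (c₁ * (c₂ * (b₂ * 1))))))))) := by rw [r2 (b₁ * (c₁ * (b₁ * (b₂ * (c₁ * (c₂ * (b₂ * 1)))))))]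
      _ = c₂ * (b₂ * (c₂ * (c₁ * (b₁ * (c₁ * (b₂ * (c₁ * (c₂ * (b₂ * 1))))))))) := by rw [r0 (b₂ * (c₁ * (c₂ * (b₂ * 1))))]
      _ = c₂ * (b₂ * (c₁ * (c₂ * (b₁ * (c₁ * (b₂ * (c₁ * (c₂ * (b₂ * 1))))))))) := by rw [k2s (b₁ * (c₁ * (b₂ * (c₁ * (c₂ * (b₂ * 1))))))]
      _ = c₂ * (b₂ * (c₁ * (b₁ * (c₂ * (c₁ * (b₂ * (c₁ * (c₂ * (b₂ * 1))))))))) := by rw [k1s (c₁ * (b₂ * (c₁ * (c₂ * (b₂ * 1)))))]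
      _ = c₂ * (b₂ * (c₁ * (b₁ * (c₂ * (b₂ * (c₁ * (b₂ * (c₂ * (b₂ * 1))))))))) := by rw [r1 (c₂ * (b₂ * 1))]
      _ = c₂ * (b₂ * (c₁ * (b₁ * (c₂ * (b₂ * (c₁ * (c₂ * (b₂ * (c₂ * 1))))))))) := by rw [r2 1]
      _ = c₂ * (b₂ * (c₁ * (b₁ * (c₂ * (b₂ * (c₂ * (c₁ * (b₂ * (c₂ * 1))))))))) := by rw [k2 (b₂ * (c₂ * 1))]
      _ = c₂ * (b₂ * (c₁ * (b₁ * (b₂ * (c₂ * (b₂ * (c₁ * (b₂ * (c₂ * 1))))))))) := by rw [r2s (c₁ * (b₂ * (c₂ * 1)))]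
      _ = c₂ * (b₂ * (c₁ * (b₂ * (b₁ * (c₂ * (b₂ * (c₁ * (b₂ * (c₂ * 1))))))))) := by rw [k0 (c₂ * (b₂ * (c₁ * (b₂ * (c₂ * 1)))))]
      _ = c₂ * (c₁ * (b₂ * (c₁ * (b₁ * (c₂ * (b₂ * (c₁ * (b₂ * (c₂ * 1))))))))) := by rw [r1s (b₁ * (c₂ * (b₂ * (c₁ * (b₂ * (c₂ * 1))))))]
      _ = c₁ * (c₂ * (b₂ * (c₁ * (b₁ * (c₂ * (b₂ * (c₁ * (b₂ * (c₂ * 1))))))))) := by rw [k2s (b₂ * (c₁ * (b₁ * (c₂ * (b₂ * (c₁ * (b₂ * (c₂ * 1))))))))]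
      _ = c₁ * (c₂ * (b₂ * (c₁ * (b₁ * (c₂ * (c₁ * (b₂ * (c₁ * (c₂ * 1))))))))) := by rw [r1s (c₂ * 1)]
      _ = c₁ * (c₂ * (b₂ * (c₁ * (b₁ * (c₁ * (c₂ * (b₂ * (c₁ * (c₂ * 1))))))))) := by rw [k2s (b₂ * (c₁ * (c₂ * 1)))]
      _ = c₁ * (c₂ * (b₂ * (b₁ * (c₁ * (b₁ * (c₂ * (b₂ * (c₁ * (c₂ * 1))))))))) := by rw [r0s (c₂ * (b₂ * (c₁ * (c₂ * 1))))]
      _ = c₁ * (c₂ * (b₁ * (b₂ * (c₁ * (b₁ * (c₂ * (b₂ * (c₁ * (c₂ * 1))))))))) := by rw [k0s (c₁ * (b₁ * (c₂ * (b₂ * (c₁ * (c₂ * 1))))))]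
      _ = c₁ * (c₂ * (b₁ * (b₂ * (c₁ * (c₂ * (b₁ * (b₂ * (c₁ * (c₂ * 1))))))))) := by rw [k1 (b₂ * (c₁ * (c₂ * 1)))]
  have e1 : alt (b₁ * b₂) (c₁ * c₂) 5 = b₁ * (b₂ * (c₁ * (c₂ * (b₁ * (b₂ * (c₁ * (c₂ * (b₁ * (b₂ * 1))))))))) := by
    simp only [alt, mul_assoc]
  have e2 : alt (c₁ * c₂) (b₁ * b₂) 5 = c₁ * (c₂ * (b₁ * (b₂ * (c₁ * (c₂ * (b₁ * (b₂ * (c₁ * (c₂ * 1))))))))) := by
    simp only [alt, mul_assoc]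
  rw [e1, e2, key]

end Pool.Agent.H2.UF
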