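import Pool.Agent.H2.SPH.Del
import Pool.Agent.H75.INF.Lia

/-!
# [H2 UF BRG] The Coxeter graph of a finite Coxeter group is a forest

`cs = M.toCoxeterSystem`, `e_i = Finsupp.single i 1`. All labels are nonzero: `label_ne_zero cs` (`H2/SPH/Del.lean`).
(1) `exists_form`: `I u v = Σ_{w : M.Group} Σ_k (rho cs w u) k * (rho cs w v) k` (`Fintype.ofFinite`; build it with `LinearMap.mk₂`). Symmetric, `I v v > 0` for `v ≠ 0` (the term `w = 1` is positive, all terms are `≥ 0`), invariant under
`rho cs (cs.simple i)` (`Equiv.sum_comp (Equiv.mulRight _)`). `rho (simple i) e_i = - e_i`, `rho (simple i) v = v - (2 * gform M i v) • e_i` (`rho_simple`, `c1_grefl_apply`, `c1_self`): `I e_i v = I (- e_i) (v - 2 gform M i v • e_i)`, so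
`I e_i v = gform M i v * I e_i e_i`.
(2) `N i = I e_i e_i`. If `3 ≤ M i j` then `gform M i e_j = gform M j e_i = - cos (π / M i j) ≠ 0` (`c1_gform_single`, `M.symmetric`), so `N i = N j` (symmetry of `I`). So `N` is constant on the support of a walk of `G`.
(3) `forest`: let `p : G.Walk v v`, `p.IsCycle`, `T = p.support.toFinset`, `u = Σ_{i ∈ T} e_i ≠ 0`. `0 < I u u = Σ_{i ∈ T} I e_i u = N v * Σ_{i ∈ T} gform M i u`. But `gform M i u = 1 + Σ_{j ∈ T, j ≠ i} gform M i e_j ≤ 1 - 1/2 - 1/2 = 0` for every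
`i ∈ T`, because every term is `≤ 0` (`- cos (π / m)`, `m ≥ 2`) and `i` has two different neighbours in `T`: `SimpleGraph.Walk.IsCycle.ncard_neighborSet_toSubgraph_eq_two` (neighbours in `p.toSubgraph` are in the support and adjacent in `G`); `- cos (π / m) ≤ - 1/2` for `m ≥ 3`.
(4) `bridge`: `SimpleGraph.isAcyclic_iff_forall_adj_isBridge`, `isBridge_iff`: `c` is not reachable from `b` in `G' = G \ fromEdgeSet {s(b, c)}` (if `M b c = 2`, or `b`, `c` not adjacent: the same with `G`, if `M b c = 2` then ... the statement has `3 ≤ M b c`). `U` = the elements reachable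
from `b` in `G'`.
(5) `alone`: suppose `3 ≤ M a b`. `u = e_a + 2 e_b + √3 e_c`; `N a = N b = N c =: N`; `I u u = N * (gform a u + 2 gform b u + √3 gform c u)`, with `x = gform a e_b ≤ - 1/2`, `y = gform b e_c ≤ - √3/2` (`cos (π / 6)`, `Real.cos` antitone), `z = gform a e_c ≤ 0`:
`1 + 4 + 3 + 4 x + 4 √3 y + 2 √3 z ≤ 8 - 2 - 6 = 0`. Contradiction. (`M a b ≠ 0, 1`, so `M a b = 2`.)
-/

set_option autoImplicit false

namespace Pool.Agent.H2.UF

open CoxeterSystem Pool.H8.CDW Pool.Agent.H75.INF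

variable {B : Type} [Finite B] (M : CoxeterMatrix B) [Finite M.Group]

theorem exists_form : ∃ I : (B →₀ ℝ) →ₗ[ℝ] (B →₀ ℝ) →ₗ[ℝ] ℝ, (∀ u v, I u v = I v u) ∧ (∀ v, v ≠ 0 → 0 < I v v) ∧
    ∀ (i : B) (v : B →₀ ℝ), I (Finsupp.single i 1) v =
      gform M i v * I (Finsupp.single i 1) (Finsupp.single i 1) := by
  classical
  haveI := Fintype.ofFinite B
  haveI := Fintype.ofFinite M.Group
  obtain ⟨I, hI⟩ : ∃ I : (B →₀ ℝ) →ₗ[ℝ] (B →₀ ℝ) →ₗ[ℝ] ℝ, ∀ u v, I u v =
      ∑ w : M.Group, ∑ k : B, (rho M.toCoxeterSystem w u) k * (rho M.toCoxeterSystem w v) k := by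
    refine ⟨LinearMap.mk₂ ℝ (fun u v => ∑ w : M.Group, ∑ k : B,
      (rho M.toCoxeterSystem w u) k * (rho M.toCoxeterSystem w v) k) ?_ ?_ ?_ ?_, fun u v => rfl⟩
    · intro u u' v
      simp only [map_add, Finsupp.add_apply, add_mul, Finset.sum_add_distrib]
    · intro c u v
      simp only [map_smul, Finsupp.smul_apply, smul_eq_mul, Finset.mul_sum, mul_assoc]
    · intro u v v'
      simp only [map_add, Finsupp.add_apply, mul_add, Finset.sum_add_distrib]
    · intro c u v
      simp only [map_smul, Finsupp.smul_apply, smul_eq_mul, Finset.mul_sum]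
      refine Finset.sum_congr rfl fun w _ => Finset.sum_congr rfl fun k _ => ?_
      ring
  have hinv : ∀ (i : B) (u v : B →₀ ℝ), I (rho M.toCoxeterSystem (M.toCoxeterSystem.simple i) u)
      (rho M.toCoxeterSystem (M.toCoxeterSystem.simple i) v) = I u v := by
    intro i u v
    rw [hI, hI, ← Equiv.sum_comp (Equiv.mulRight (M.toCoxeterSystem.simple i)) fun w =>
      ∑ k : B, (rho M.toCoxeterSystem w u) k * (rho M.toCoxeterSystem w v) k]
    refine Finset.sum_congr rfl fun w _ => Finset.sum_congr rfl fun k _ => ?_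
    rw [Equiv.coe_mulRight, map_mul, Module.End.mul_apply, Module.End.mul_apply]
  refine ⟨I, ?_, ?_, ?_⟩
  · intro u v
    rw [hI, hI]
    exact Finset.sum_congr rfl fun w _ => Finset.sum_congr rfl fun k _ => mul_comm _ _
  · intro v hv
    rw [hI]
    refine Finset.sum_pos' (fun w _ => Finset.sum_nonneg fun k _ => mul_self_nonneg _)
      ⟨1, Finset.mem_univ _, ?_⟩
    rw [map_one]
    obtain ⟨k, hk⟩ : ∃ k, v k ≠ 0 := by
      by_contra hcon
      push Not at hcon
      exact hv (Finsupp.ext hcon)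
    exact Finset.sum_pos' (fun k _ => mul_self_nonneg _) ⟨k, Finset.mem_univ _, mul_self_pos.2 hk⟩
  · intro i v
    have h1 := hinv i (Finsupp.single i 1) v
    rw [rho_simple, c1_grefl_apply, c1_grefl_apply, c1_self] at h1
    simp only [map_sub, map_smul, LinearMap.sub_apply, LinearMap.smul_apply, smul_eq_mul] at h1
    linarith

private theorem brg_ne0 (i j : B) : M i j ≠ 0 := Pool.Agent.H2.SPH.label_ne_zero M.toCoxeterSystem i j

private theorem brg_two {i j : B} (h : i ≠ j) : 2 ≤ M i j := by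
  have h1 := brg_ne0 M i j
  have h2 : M i j ≠ 1 := M.off_diagonal i j h
  omega

private theorem brg_ne {i j : B} (h : 3 ≤ M i j) : i ≠ j := by
  rintro rfl
  have h1 : M i i = 1 := M.diagonal i
  omega

private theorem brg_sym (i j : B) : M i j = M j i := M.symmetric i j

private theorem brg_g (i j : B) : gform M i (Finsupp.single j (1 : ℝ)) = - Real.cos (Real.pi / M i j) := by
  rw [c1_gform_single, if_neg (brg_ne0 M i j)]

omit [Finite B] [Finite M.Group] in
private theorem brg_cos {m : ℕ} {n : ℕ} (hn : 1 ≤ n) (h : n ≤ m) :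
    Real.cos (Real.pi / n) ≤ Real.cos (Real.pi / m) := by
  have hn' : (1 : ℝ) ≤ n := by exact_mod_cast hn
  have hm' : (n : ℝ) ≤ m := by exact_mod_cast h
  have hpi := Real.pi_pos
  refine Real.cos_le_cos_of_nonneg_of_le_pi (by positivity) ?_ ?_
  · exact div_le_self hpi.le hn'
  · exact div_le_div_of_nonneg_left hpi.le (by linarith) hm'

private theorem brg_nonpos {i j : B} (h : i ≠ j) : gform M i (Finsupp.single j (1 : ℝ)) ≤ 0 := by
  rw [brg_g]
  have h1 := brg_cos (by norm_num : 1 ≤ 2) (brg_two M h)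
  rw [Nat.cast_ofNat, Real.cos_pi_div_two] at h1
  linarith

private theorem brg_half {i j : B} (h : 3 ≤ M i j) : gform M i (Finsupp.single j (1 : ℝ)) ≤ - (1 / 2) := by
  rw [brg_g]
  have h1 := brg_cos (by norm_num : 1 ≤ 3) h
  rw [Nat.cast_ofNat, Real.cos_pi_div_three] at h1
  linarith

private theorem brg_six {i j : B} (h : 6 ≤ M i j) :
    gform M i (Finsupp.single j (1 : ℝ)) ≤ - (Real.sqrt 3 / 2) := by
  rw [brg_g]
  have h1 := brg_cos (by norm_num : 1 ≤ 6) h
  rw [Nat.cast_ofNat, Real.cos_pi_div_six] at h1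
  linarith

private theorem brg_N {I : (B →₀ ℝ) →ₗ[ℝ] (B →₀ ℝ) →ₗ[ℝ] ℝ} (h1 : ∀ u v, I u v = I v u)
    (h3 : ∀ (i : B) (v : B →₀ ℝ), I (Finsupp.single i 1) v =
      gform M i v * I (Finsupp.single i 1) (Finsupp.single i 1)) {i j : B} (h : 3 ≤ M i j) :
    I (Finsupp.single i 1) (Finsupp.single i 1) = I (Finsupp.single j 1) (Finsupp.single j 1) := by
  have e1 := h3 i (Finsupp.single j 1)
  have e2 := h3 j (Finsupp.single i 1)
  rw [h1, e2, brg_g, brg_g, brg_sym M j i] at e1
  have e3 : - Real.cos (Real.pi / M i j) ≠ 0 := by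
    have h4 := brg_half M h
    rw [brg_g] at h4
    linarith
  exact (mul_left_cancel₀ e3 e1).symm

/-- the Coxeter graph is a forest -/
theorem forest : (SimpleGraph.fromRel fun i j : B => 3 ≤ M i j).IsAcyclic := by
  classical
  obtain ⟨I, h1, h2, h3⟩ := exists_form M
  have hadj : ∀ i j, (SimpleGraph.fromRel fun i j : B => 3 ≤ M i j).Adj i j → 3 ≤ M i j := by
    intro i j h
    rw [SimpleGraph.fromRel_adj] at h
    rcases h.2 with h4 | h4
    · exact h4
    · rw [brg_sym]
      exact h4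
  have hN : ∀ i j, (SimpleGraph.fromRel fun i j : B => 3 ≤ M i j).Reachable i j →
      I (Finsupp.single i 1) (Finsupp.single i 1) = I (Finsupp.single j 1) (Finsupp.single j 1) := by
    rintro i j ⟨p⟩
    induction p with
    | nil => rfl
    | cons h _ ih => exact (brg_N M h1 h3 (hadj _ _ h)).trans ih
  intro v p hp
  have hv : v ∈ p.support.toFinset := List.mem_toFinset.2 p.start_mem_support
  obtain ⟨u, hu⟩ : ∃ u : B →₀ ℝ, u = ∑ i ∈ p.support.toFinset, Finsupp.single i (1 : ℝ) := ⟨_, rfl⟩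
  have hu0 : u ≠ 0 := by
    intro h0
    have h4 : u v = 1 := by
      rw [hu, Finsupp.finsetSum_apply, Finset.sum_eq_single v]
      · exact Finsupp.single_eq_same
      · intro i _ hi
        exact Finsupp.single_eq_of_ne hi.symm
      · intro h5
        exact absurd hv h5
    rw [h0, Finsupp.zero_apply] at h4
    exact zero_ne_one h4
  have hg : ∀ i ∈ p.support.toFinset, gform M i u ≤ 0 := by
    intro i hi
    have hi' : i ∈ p.support := List.mem_toFinset.1 hi
    obtain ⟨x, y, hxy, hS⟩ := Set.ncard_eq_two.1 (hp.ncard_neighborSet_toSubgraph_eq_two hi')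
    have hx : p.toSubgraph.Adj i x := by
      have h4 : x ∈ p.toSubgraph.neighborSet i := by
        rw [hS]
        exact Set.mem_insert _ _
      exact h4
    have hy : p.toSubgraph.Adj i y := by
      have h4 : y ∈ p.toSubgraph.neighborSet i := by
        rw [hS]
        exact Set.mem_insert_of_mem _ rfl
      exact h4
    have hxG := hadj _ _ hx.adj_sub
    have hyG := hadj _ _ hy.adj_sub
    have hxT : x ∈ p.support.toFinset :=
      List.mem_toFinset.2 ((p.mem_verts_toSubgraph).1 hx.snd_mem)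
    have hyT : y ∈ p.support.toFinset :=
      List.mem_toFinset.2 ((p.mem_verts_toSubgraph).1 hy.snd_mem)
    rw [hu, map_sum, ← Finset.add_sum_erase _ _ hi, c1_self]
    have h4 : ∑ j ∈ ({x, y} : Finset B), - gform M i (Finsupp.single j (1 : ℝ)) ≤
        ∑ j ∈ p.support.toFinset.erase i, - gform M i (Finsupp.single j (1 : ℝ)) := by
      refine Finset.sum_le_sum_of_subset_of_nonneg ?_ ?_
      · intro j hj
        rcases Finset.mem_insert.1 hj with rfl | hj
        · exact Finset.mem_erase.2 ⟨(brg_ne M hxG).symm, hxT⟩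
        · rw [Finset.mem_singleton.1 hj]
          exact Finset.mem_erase.2 ⟨(brg_ne M hyG).symm, hyT⟩
      · intro j hj _
        have h5 := brg_nonpos M (Finset.ne_of_mem_erase hj).symm
        linarith
    rw [Finset.sum_pair hxy, Finset.sum_neg_distrib] at h4
    have h5 := brg_half M hxG
    have h6 := brg_half M hyG
    linarith
  have hpos := h2 u hu0
  have hle : I u u ≤ 0 := by
    have e1 : ∀ x, I u x = ∑ i ∈ p.support.toFinset, I (Finsupp.single i 1) x := fun x => by
      rw [hu, map_sum, LinearMap.sum_apply]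
    rw [e1]
    refine Finset.sum_nonpos fun i hi => ?_
    rw [h3]
    exact mul_nonpos_of_nonpos_of_nonneg (hg i hi) (h2 _ (by simp)).le
  linarith

/-- every edge is a bridge -/
theorem bridge {b c : B} (h : 3 ≤ M b c) :
    ∃ U : Set B, b ∈ U ∧ c ∉ U ∧ ∀ i ∈ U, ∀ j, j ∉ U → ¬ (i = b ∧ j = c) → M i j = 2 := by
  have hbc := brg_ne M h
  have hadj : (SimpleGraph.fromRel fun i j : B => 3 ≤ M i j).Adj b c := by
    rw [SimpleGraph.fromRel_adj]
    exact ⟨hbc, Or.inl h⟩
  have h1 := SimpleGraph.isBridge_iff.1 (SimpleGraph.isAcyclic_iff_forall_adj_isBridge.1 (forest M) hadj)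
  refine ⟨{x | ((SimpleGraph.fromRel fun i j : B => 3 ≤ M i j).deleteEdges {s(b, c)}).Reachable b x},
    SimpleGraph.Reachable.refl _, h1, ?_⟩
  intro i hi j hj hne
  have hi' : ((SimpleGraph.fromRel fun i j : B => 3 ≤ M i j).deleteEdges {s(b, c)}).Reachable b i := hi
  have hij : i ≠ j := by
    rintro rfl
    exact hj hi
  have h2 := brg_two M hij
  by_contra h3
  have h4 : 3 ≤ M i j := by omega
  refine hj (hi'.trans (SimpleGraph.Adj.reachable ?_))
  rw [SimpleGraph.deleteEdges_adj, SimpleGraph.fromRel_adj]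
  refine ⟨⟨hij, Or.inl h4⟩, ?_⟩
  rw [Set.mem_singleton_iff, Sym2.eq_iff]
  rintro (⟨rfl, rfl⟩ | ⟨rfl, rfl⟩)
  · exact hne ⟨rfl, rfl⟩
  · exact hj (SimpleGraph.Reachable.refl _)

/-- a label at least `6` is isolated -/
theorem alone {a b c : B} (h : 6 ≤ M b c) (hb : a ≠ b) (hc : a ≠ c) : M a b = 2 := by
  have h2 := brg_two M hb
  by_contra hne
  have hab : 3 ≤ M a b := by omega
  have hbc : b ≠ c := brg_ne M (by omega : 3 ≤ M b c)
  obtain ⟨I, g1, g2, g3⟩ := exists_form M
  have n1 := brg_N M g1 g3 hab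
  have n2 := brg_N M g1 g3 (by omega : 3 ≤ M b c)
  obtain ⟨N, hN⟩ : ∃ N, N = I (Finsupp.single a 1) (Finsupp.single a 1) := ⟨_, rfl⟩
  have hNpos : 0 < N := by
    rw [hN]
    exact g2 _ (by simp)
  rw [← hN] at n1
  rw [← n1] at n2
  obtain ⟨u, hu⟩ : ∃ u : B →₀ ℝ, u = Finsupp.single a (1 : ℝ) + (2 : ℝ) • Finsupp.single b (1 : ℝ) +
      Real.sqrt 3 • Finsupp.single c (1 : ℝ) := ⟨_, rfl⟩
  have hu0 : u ≠ 0 := by
    intro h0
    have h4 : u a = 1 := by
      rw [hu, Finsupp.add_apply, Finsupp.add_apply, Finsupp.smul_apply, Finsupp.smul_apply,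
        Finsupp.single_eq_same, Finsupp.single_eq_of_ne hb, Finsupp.single_eq_of_ne hc]
      simp
    rw [h0, Finsupp.zero_apply] at h4
    exact zero_ne_one h4
  have hpos := g2 u hu0
  have e1 : I u u = N * (gform M a u + 2 * gform M b u + Real.sqrt 3 * gform M c u) := by
    have e2 : ∀ x, I u x = I (Finsupp.single a 1) x + 2 * I (Finsupp.single b 1) x +
        Real.sqrt 3 * I (Finsupp.single c 1) x := fun x => by
      rw [hu, map_add, map_add, map_smul, map_smul, LinearMap.add_apply, LinearMap.add_apply,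
        LinearMap.smul_apply, LinearMap.smul_apply, smul_eq_mul, smul_eq_mul]
    rw [e2, g3 a u, g3 b u, g3 c u, ← hN, ← n1, ← n2]
    ring
  have x1 : gform M a u = 1 + 2 * gform M a (Finsupp.single b (1 : ℝ)) +
      Real.sqrt 3 * gform M a (Finsupp.single c (1 : ℝ)) := by
    rw [hu, map_add, map_add, map_smul, map_smul, c1_self, smul_eq_mul, smul_eq_mul]
  have x2 : gform M b u = gform M b (Finsupp.single a (1 : ℝ)) + 2 +
      Real.sqrt 3 * gform M b (Finsupp.single c (1 : ℝ)) := by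
    rw [hu, map_add, map_add, map_smul, map_smul, c1_self, smul_eq_mul, smul_eq_mul, mul_one]
  have x3 : gform M c u = gform M c (Finsupp.single a (1 : ℝ)) +
      2 * gform M c (Finsupp.single b (1 : ℝ)) + Real.sqrt 3 := by
    rw [hu, map_add, map_add, map_smul, map_smul, c1_self, smul_eq_mul, smul_eq_mul, mul_one]
  have y1 := brg_half M hab
  have y2 := brg_half M (by rw [brg_sym M b a]; exact hab : 3 ≤ M b a)
  have y3 := brg_nonpos M hc
  have y4 := brg_nonpos M hc.symm
  have y5 := brg_six M h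
  have y6 := brg_six M (by rw [brg_sym M c b]; exact h : 6 ≤ M c b)
  have hs : Real.sqrt 3 * Real.sqrt 3 = 3 := Real.mul_self_sqrt (by norm_num)
  have hs0 : 0 ≤ Real.sqrt 3 := Real.sqrt_nonneg _
  have hle : gform M a u + 2 * gform M b u + Real.sqrt 3 * gform M c u ≤ 0 := by
    rw [x1, x2, x3]
    have z1 : Real.sqrt 3 * gform M a (Finsupp.single c (1 : ℝ)) ≤ 0 := mul_nonpos_of_nonneg_of_nonpos hs0 y3
    have z2 : Real.sqrt 3 * gform M c (Finsupp.single a (1 : ℝ)) ≤ 0 := mul_nonpos_of_nonneg_of_nonpos hs0 y4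
    have z3 : Real.sqrt 3 * gform M b (Finsupp.single c (1 : ℝ)) ≤ - (3 / 2) := by
      have := mul_le_mul_of_nonneg_left y5 hs0
      linarith
    have z4 : Real.sqrt 3 * gform M c (Finsupp.single b (1 : ℝ)) ≤ - (3 / 2) := by
      have := mul_le_mul_of_nonneg_left y6 hs0
      linarith
    linarith
  have h5 := mul_nonpos_of_nonneg_of_nonpos hNpos.le hle
  linarith

end Pool.Agent.H2.UF
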