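import Pool.Agent.H2.UF.Fld
import Pool.Agent.H2.SPH.Del

/-!
# [H2 UF DSC] Descents under a folding; the Coxeter group above is finite

Write `cs`, `cs'` for the two Coxeter systems, `e_t = Finsupp.single t 1`, `q : (B' →₀ ℝ) →ₗ (B →₀ ℝ)`, `q e_t = lam t • e_(pi t)`.

(1) For a list `l` in `B'` with `l.Pairwise (M' s t = 2)`: `rho cs' ((l.map simple).prod) v = v - (l.map fun s => (2 * gform M' s v) • e_s).sum`. Induction on `l`:
`grefl M' s (v - Σ) = v - Σ - 2 (gform s v - gform s Σ) e_s` and `gform M' s Σ = 0` since `gform M' s e_t = - cos (π / 2) = 0` for `t ∈ l`.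

(2) `q (rho cs' (F.fw w) v) = rho cs w (q v)`. Enough for `w = simple i` (`cs.simple_induction_left` or `F.fw.comp`, `LinearMap` equality on the basis `e_t`), `v = e_t`. If `pi t = i`:
`gform M' s e_t` is `0` for `s ∈ cp i`, `s ≠ t`, and `1` for `s = t` (`t` occurs once, `nd`, `mem`): `e_t ↦ - e_t`, `q` gives `- lam t • e_i = rho (simple i) (lam t • e_i)`. If `pi t ≠ i`: `q` of the sum is
`(Σ 2 gform M' s e_t * lam s) • e_i` (`pi s = i`), and `bal`.

(3) `desc_iff`. `i = pi t`. If `i` is not a right descent of `w`: `ℓ w < ℓ (w s_i)`, `pos_root`: `rho w e_i ≥ 0` coordinatewise; if it is a descent then `rho w e_i = - rho (w s_i) e_i ≤ 0`.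
`rho w e_i ≠ 0` always (`rho w⁻¹`). The same for `t` and `F.fw w`; `q` preserves `≥ 0` (coordinates of `q v` are finite sums of `lam t * v t`); `q (rho' e_t) = lam t • rho w e_i`.
So both descents or none.

(4) `len_add`: induction on a reduced word of `v`, one letter `i` on the right: `i` is not a right descent of `u v'`, so no `t ∈ cp i` is a right descent of `fw (u v')`: `IsMin cs' {t | t ∈ cp i} (fw (u v'))`,
`length_add`. `fw (simple i)` has length `(cp i).length`, the same with `v'`. Reducedness of the list `cp i` without repetitions: `len_list`, induction: `s_t` with `t ∉ l` is `IsMin` for `{k | k ∈ l}`.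
(5) `fm_tau`: induction on the reduced word with (4) and `tau_mul`; `tau cs' (F.fw (simple i)) = ((cp i).map ag).prod` from `len_list` and `tau_eq`.
(6) `fin`: `w₀ = w0 cs` (`pf_w0`): every `i` is a right descent (`len_mul_w0`), so every `t` is a right descent of `x = fw w₀`. So `rho' x e_t ≤ 0` for all `t`. CLAIM: `ℓ' v ≤ ℓ' x` for all `v`: `ℓ' (x v) + ℓ' v = ℓ' x`,
induction on a reduced word of `v`: `v = v' s_t` with `t` not a right descent of `v'`: `rho' v' e_t ≥ 0` so `rho' (x v') e_t ≤ 0`, nonzero, `t` is a right descent of `x v'`. Finitely many words of bounded length: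
`M'.Group` is finite (`Finite` lists of length `≤ N` over a finite type, `cs'.wordProd`).
-/

set_option autoImplicit false

namespace Pool.Agent.H2.UF

open CoxeterSystem Pool.H8.CDW Pool.Agent.H52.PAG Pool.Agent.H75.INF Pool.Agent.H2.SPH

variable {B B' : Type} {M : CoxeterMatrix B} {M' : CoxeterMatrix B'}

private theorem word_mem_par {W : Type*} [Group W] (cs : CoxeterSystem M' W) {J : Set B'} {l : List B'} (h : ∀ i ∈ l, i ∈ J) :
    cs.wordProd l ∈ par cs J := by
  induction l with
  | nil => rw [cs.wordProd_nil]; exact one_mem _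
  | cons i l ih =>
    rw [cs.wordProd_cons]
    exact mul_mem (simple_mem_par cs (h i List.mem_cons_self)) (ih fun j hj => h j (List.mem_cons_of_mem i hj))

theorem len_list {l : List B'} (h : l.Nodup) : M'.toCoxeterSystem.IsReduced l := by
  induction l with
  | nil =>
    unfold CoxeterSystem.IsReduced
    simp
  | cons a l ih =>
    rw [List.nodup_cons] at h
    have h1 := ih h.2
    have h2 : IsMin M'.toCoxeterSystem {k | k ∈ l} (M'.toCoxeterSystem.simple a) := by
      intro j hj hd
      unfold CoxeterSystem.IsRightDescent at hd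
      rw [M'.toCoxeterSystem.length_simple] at hd
      have h3 : M'.toCoxeterSystem.simple a * M'.toCoxeterSystem.simple j = 1 := by
        rw [← M'.toCoxeterSystem.length_eq_zero_iff]
        omega
      have h4 : M'.toCoxeterSystem.simple a = M'.toCoxeterSystem.simple j := by
        rw [← M'.toCoxeterSystem.inv_simple j]
        exact eq_inv_of_mul_eq_one_left h3
      have h5 := simple_inj M'.toCoxeterSystem h4
      subst h5
      exact h.1 hj
    have h3 := length_add M'.toCoxeterSystem h2 (word_mem_par M'.toCoxeterSystem (l := l) fun i hi => hi)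
    unfold CoxeterSystem.IsReduced
    rw [M'.toCoxeterSystem.wordProd_cons, h3, h1.eq, M'.toCoxeterSystem.length_simple, List.length_cons, add_comm]

private theorem gf_zero {s t : B'} (h : M' s t = 2) : gform M' s (Finsupp.single t (1 : ℝ)) = 0 := by
  rw [c1_gform_single, h]
  simp

private theorem gf_sum (a : B') (f : B' → ℝ) {l : List B'} (h : ∀ s ∈ l, M' a s = 2) :
    gform M' a (l.map fun s => f s • Finsupp.single s (1 : ℝ)).sum = 0 := by
  induction l with
  | nil => simp
  | cons b l ih =>
    rw [List.map_cons, List.sum_cons, map_add, map_smul, gf_zero (h b List.mem_cons_self), smul_zero, zero_add]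
    exact ih fun s hs => h s (List.mem_cons_of_mem b hs)

private theorem rho_list {l : List B'} (h : l.Pairwise fun s t => M' s t = 2) (v : B' →₀ ℝ) :
    rho M'.toCoxeterSystem ((l.map M'.toCoxeterSystem.simple).prod) v =
      v - (l.map fun s => (2 * gform M' s v) • Finsupp.single s (1 : ℝ)).sum := by
  induction l with
  | nil =>
    rw [List.map_nil, List.prod_nil, map_one, Module.End.one_apply, List.map_nil, List.sum_nil, sub_zero]
  | cons a l ih =>
    rw [List.pairwise_cons] at h
    rw [List.map_cons, List.prod_cons, map_mul, Module.End.mul_apply, ih h.2, rho_simple, c1_grefl_apply, map_sub,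
      gf_sum a _ h.1, sub_zero, List.map_cons, List.sum_cons, sub_sub, add_comm]

private theorem rho_neg {W : Type*} [Group W] (cs : CoxeterSystem M W) (w : W) (i : B) (h : cs.IsRightDescent w i) (k : B) :
    rho cs w (Finsupp.single i 1) k ≤ 0 := by
  have h1 : cs.length (w * cs.simple i) < cs.length (w * cs.simple i * cs.simple i) := by
    rw [simple_mul_simple_cancel_right]
    exact h
  have h2 := pos_root cs (w * cs.simple i) i h1 k
  rw [map_mul, Module.End.mul_apply, rho_simple, c1_grefl_apply, c1_self, mul_one, two_smul, sub_add_cancel_left, map_neg,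
    Finsupp.neg_apply] at h2
  linarith

private theorem rho_pos {W : Type*} [Group W] (cs : CoxeterSystem M W) (w : W) (i : B) (h : ¬ cs.IsRightDescent w i) (k : B) :
    0 ≤ rho cs w (Finsupp.single i 1) k := by
  rw [cs.not_isRightDescent_iff] at h
  exact pos_root cs w i (by omega) k

private theorem rho_ne {W : Type*} [Group W] (cs : CoxeterSystem M W) (w : W) (i : B) :
    rho cs w (Finsupp.single i 1) ≠ 0 := by
  intro h
  have h1 : rho cs w⁻¹ (rho cs w (Finsupp.single i 1)) = Finsupp.single i 1 := by
    rw [← Module.End.mul_apply, ← map_mul, inv_mul_cancel, map_one, Module.End.one_apply]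
  rw [h, map_zero] at h1
  exact one_ne_zero (Finsupp.single_eq_zero.1 h1.symm)

namespace Fold

variable (F : Fold M M')

private theorem bal' (i : B) (t : B') : ((F.cp i).map fun s => gform M' s (Finsupp.single t (1 : ℝ)) * F.lam s).sum =
    gform M i (Finsupp.single (F.pi t) (1 : ℝ)) * F.lam t := by
  classical
  by_cases h : F.pi t = i
  · rw [← List.sum_toFinset _ (F.nd i), Finset.sum_eq_single_of_mem t (List.mem_toFinset.2 ((F.mem i t).2 h)), c1_self, h, c1_self]
    intro s hs hst
    rw [gf_zero (F.com s t hst (by rw [(F.mem i s).1 (List.mem_toFinset.1 hs), h])), zero_mul]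
  · exact F.bal i t h

private noncomputable def qm : (B' →₀ ℝ) →ₗ[ℝ] (B →₀ ℝ) :=
  Finsupp.lsum ℝ fun t => LinearMap.toSpanSingleton ℝ (B →₀ ℝ) (Finsupp.single (F.pi t) (F.lam t))

private theorem qm_single (t : B') (a : ℝ) : F.qm (Finsupp.single t a) = a • Finsupp.single (F.pi t) (F.lam t) := by
  unfold qm
  rw [Finsupp.lsum_single, LinearMap.toSpanSingleton_apply]

private theorem qm_single_one (t : B') : F.qm (Finsupp.single t 1) = F.lam t • Finsupp.single (F.pi t) (1 : ℝ) := by
  rw [qm_single, one_smul, Finsupp.smul_single, smul_eq_mul, mul_one]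

private theorem qm_nonneg {v : B' →₀ ℝ} (h : ∀ k, 0 ≤ v k) (k : B) : 0 ≤ F.qm v k := by
  classical
  unfold qm
  rw [Finsupp.lsum_apply, Finsupp.sum, Finsupp.finsetSum_apply]
  refine Finset.sum_nonneg fun t _ => ?_
  rw [LinearMap.toSpanSingleton_apply, Finsupp.smul_apply, Finsupp.single_apply, smul_eq_mul]
  refine mul_nonneg (h t) ?_
  split_ifs
  · exact (F.pos t).le
  · exact le_refl 0

private theorem qm_simple (i : B) : F.qm.comp (rho M'.toCoxeterSystem (F.fw (M.toCoxeterSystem.simple i))) =
    (rho M.toCoxeterSystem (M.toCoxeterSystem.simple i)).comp F.qm := by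
  refine Finsupp.lhom_ext' fun t => LinearMap.ext_ring ?_
  rw [LinearMap.comp_apply, LinearMap.comp_apply, LinearMap.comp_apply, LinearMap.comp_apply, Finsupp.lsingle_apply,
    F.fw_simple, rho_list (F.pair i), rho_simple, map_sub, qm_single_one, map_smul, c1_grefl_apply, map_list_sum, List.map_map]
  have h1 : (F.cp i).map (F.qm ∘ fun s => (2 * gform M' s (Finsupp.single t (1 : ℝ))) • Finsupp.single s (1 : ℝ)) =
      (F.cp i).map fun s => (gform M' s (Finsupp.single t (1 : ℝ)) * F.lam s) • ((2 : ℝ) • Finsupp.single i (1 : ℝ)) := by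
    refine List.map_congr_left fun s hs => ?_
    show F.qm ((2 * gform M' s (Finsupp.single t (1 : ℝ))) • Finsupp.single s (1 : ℝ)) = _
    rw [map_smul, qm_single_one, (F.mem i s).1 hs, smul_smul, smul_smul]
    congr 1
    ring
  have h2 : ∀ (l : List B') (f : B' → ℝ) (x : B →₀ ℝ), (l.map fun s => f s • x).sum = (l.map f).sum • x := by
    intro l f x
    induction l with
    | nil => simp
    | cons a l ih => rw [List.map_cons, List.sum_cons, ih, List.map_cons, List.sum_cons, add_smul]
  rw [h1, h2, F.bal', smul_sub, smul_smul, smul_smul]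
  congr 2
  ring

private theorem qm_rho (w : M.Group) (v : B' →₀ ℝ) : F.qm (rho M'.toCoxeterSystem (F.fw w) v) =
    rho M.toCoxeterSystem w (F.qm v) := by
  induction w using M.toCoxeterSystem.simple_induction_left generalizing v with
  | one => rw [map_one, map_one, map_one, Module.End.one_apply, Module.End.one_apply]
  | mul_simple_left w i ih =>
    rw [map_mul, map_mul, Module.End.mul_apply, map_mul, Module.End.mul_apply, ← ih]
    exact LinearMap.congr_fun (F.qm_simple i) _

theorem desc_iff (w : M.Group) (t : B') : M'.toCoxeterSystem.IsRightDescent (F.fw w) t ↔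
    M.toCoxeterSystem.IsRightDescent w (F.pi t) := by
  have hq : F.qm (rho M'.toCoxeterSystem (F.fw w) (Finsupp.single t 1)) =
      F.lam t • rho M.toCoxeterSystem w (Finsupp.single (F.pi t) 1) := by
    rw [qm_rho, qm_single_one, map_smul]
  constructor
  · intro h
    by_contra hc
    refine rho_ne M.toCoxeterSystem w (F.pi t) (Finsupp.ext fun k => ?_)
    have h1 := rho_pos M.toCoxeterSystem w (F.pi t) hc k
    have h2 : 0 ≤ F.qm (-rho M'.toCoxeterSystem (F.fw w) (Finsupp.single t 1)) k := by
      refine F.qm_nonneg (fun k' => ?_) k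
      rw [Finsupp.neg_apply]
      have := rho_neg M'.toCoxeterSystem (F.fw w) t h k'
      linarith
    rw [map_neg, hq, Finsupp.neg_apply, Finsupp.smul_apply, smul_eq_mul] at h2
    rw [Finsupp.zero_apply]
    have h3 := F.pos t
    have h4 : F.lam t * rho M.toCoxeterSystem w (Finsupp.single (F.pi t) 1) k ≤ 0 := by linarith
    exact le_antisymm (nonpos_of_mul_nonpos_right h4 h3) h1
  · intro h
    by_contra hc
    refine rho_ne M.toCoxeterSystem w (F.pi t) (Finsupp.ext fun k => ?_)
    have h1 := rho_neg M.toCoxeterSystem w (F.pi t) h k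
    have h2 : 0 ≤ F.qm (rho M'.toCoxeterSystem (F.fw w) (Finsupp.single t 1)) k :=
      F.qm_nonneg (fun k' => rho_pos M'.toCoxeterSystem (F.fw w) t hc k') k
    rw [hq, Finsupp.smul_apply, smul_eq_mul] at h2
    rw [Finsupp.zero_apply]
    exact le_antisymm h1 (nonneg_of_mul_nonneg_right h2 (F.pos t))

theorem desc_iff_left (w : M.Group) (t : B') : M'.toCoxeterSystem.IsLeftDescent (F.fw w) t ↔
    M.toCoxeterSystem.IsLeftDescent w (F.pi t) := by
  rw [← isRightDescent_inv_iff, ← isRightDescent_inv_iff, ← map_inv]
  exact F.desc_iff _ t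

private theorem fw_mem_par (i : B) : F.fw (M.toCoxeterSystem.simple i) ∈ par M'.toCoxeterSystem {t | t ∈ F.cp i} := by
  rw [F.fw_simple]
  exact word_mem_par M'.toCoxeterSystem (l := F.cp i) fun t ht => ht

private theorem len_fw_step {w : M.Group} {i : B} (h : ¬ M.toCoxeterSystem.IsRightDescent w i) :
    M'.toCoxeterSystem.length (F.fw (w * M.toCoxeterSystem.simple i)) =
      M'.toCoxeterSystem.length (F.fw w) + M'.toCoxeterSystem.length (F.fw (M.toCoxeterSystem.simple i)) := by
  rw [map_mul]
  refine length_add M'.toCoxeterSystem (J := {t | t ∈ F.cp i}) ?_ (F.fw_mem_par i)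
  intro t ht hd
  have h1 := (F.desc_iff w t).1 hd
  rw [(F.mem i t).1 ht] at h1
  exact h h1

private theorem len_add_aux (n : ℕ) : ∀ v : M.Group, M.toCoxeterSystem.length v = n → ∀ u : M.Group,
    M.toCoxeterSystem.length (u * v) = M.toCoxeterSystem.length u + M.toCoxeterSystem.length v →
    M'.toCoxeterSystem.length (F.fw (u * v)) = M'.toCoxeterSystem.length (F.fw u) + M'.toCoxeterSystem.length (F.fw v) := by
  induction n with
  | zero =>
    intro v hv u _
    rw [M.toCoxeterSystem.length_eq_zero_iff] at hv
    rw [hv, mul_one, map_one, M'.toCoxeterSystem.length_one, add_zero]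
  | succ n ih =>
    intro v hv u huv
    have hv1 : v ≠ 1 := by
      rintro rfl
      rw [M.toCoxeterSystem.length_one] at hv
      omega
    obtain ⟨i, hi⟩ := M.toCoxeterSystem.exists_rightDescent_of_ne_one hv1
    rw [M.toCoxeterSystem.isRightDescent_iff] at hi
    obtain ⟨v', hv'⟩ : ∃ v', v' = v * M.toCoxeterSystem.simple i := ⟨_, rfl⟩
    have e1 : v = v' * M.toCoxeterSystem.simple i := by
      rw [hv', simple_mul_simple_cancel_right]
    rw [← hv'] at hi
    have h1 := M.toCoxeterSystem.length_mul_le u v'
    have h2 : M.toCoxeterSystem.length (u * v) ≤ M.toCoxeterSystem.length (u * v') + 1 := by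
      rw [e1, ← mul_assoc]
      have := M.toCoxeterSystem.length_mul_le (u * v') (M.toCoxeterSystem.simple i)
      rwa [M.toCoxeterSystem.length_simple] at this
    have h3 := ih v' (by omega) u (by omega)
    have h4 : ¬ M.toCoxeterSystem.IsRightDescent v' i := by
      rw [M.toCoxeterSystem.not_isRightDescent_iff, ← e1]
      omega
    have h5 : ¬ M.toCoxeterSystem.IsRightDescent (u * v') i := by
      rw [M.toCoxeterSystem.not_isRightDescent_iff, mul_assoc, ← e1]
      omega
    have h6 := F.len_fw_step h4
    have h7 := F.len_fw_step h5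
    rw [mul_assoc, ← e1] at h7
    rw [← e1] at h6
    omega

theorem len_add {u v : M.Group} (h : M.toCoxeterSystem.length (u * v) = M.toCoxeterSystem.length u + M.toCoxeterSystem.length v) :
    M'.toCoxeterSystem.length (F.fw (u * v)) = M'.toCoxeterSystem.length (F.fw u) + M'.toCoxeterSystem.length (F.fw v) :=
  F.len_add_aux _ v rfl u h

private theorem fm_tau_aux (n : ℕ) : ∀ w : M.Group, M.toCoxeterSystem.length w = n →
    F.fm (tau M.toCoxeterSystem w) = tau M'.toCoxeterSystem (F.fw w) := by
  induction n with
  | zero =>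
    intro w hw
    rw [M.toCoxeterSystem.length_eq_zero_iff] at hw
    rw [hw, map_one, tau_one, tau_one, map_one]
  | succ n ih =>
    intro w hw
    have hw1 : w ≠ 1 := by
      rintro rfl
      rw [M.toCoxeterSystem.length_one] at hw
      omega
    obtain ⟨i, hi⟩ := M.toCoxeterSystem.exists_rightDescent_of_ne_one hw1
    rw [M.toCoxeterSystem.isRightDescent_iff] at hi
    obtain ⟨w', hw'⟩ : ∃ w', w' = w * M.toCoxeterSystem.simple i := ⟨_, rfl⟩
    have e1 : w = w' * M.toCoxeterSystem.simple i := by
      rw [hw', simple_mul_simple_cancel_right]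
    rw [← hw'] at hi
    have h1 : M.toCoxeterSystem.length (w' * M.toCoxeterSystem.simple i) =
        M.toCoxeterSystem.length w' + M.toCoxeterSystem.length (M.toCoxeterSystem.simple i) := by
      rw [← e1, M.toCoxeterSystem.length_simple]
      omega
    have h2 := F.len_add h1
    rw [map_mul] at h2
    have h3 : tau M'.toCoxeterSystem (F.fw (M.toCoxeterSystem.simple i)) = ((F.cp i).map (ag M')).prod := by
      rw [← tau_eq M'.toCoxeterSystem (len_list (F.nd i)), F.fw_simple]
      rfl
    rw [e1, tau_mul h1, map_mul, map_mul, tau_mul h2, ih w' (by omega), tau_simple, h3, F.fm_ag]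

theorem fm_tau (w : M.Group) : F.fm (tau M.toCoxeterSystem w) = tau M'.toCoxeterSystem (F.fw w) :=
  F.fm_tau_aux _ w rfl

include F in
theorem fin [Finite M.Group] [Finite B'] : Finite M'.Group := by
  have hx : ∀ t, M'.toCoxeterSystem.IsRightDescent (F.fw (w0 M.toCoxeterSystem)) t := by
    intro t
    rw [F.desc_iff]
    unfold CoxeterSystem.IsRightDescent
    have h1 := len_w0_mul M.toCoxeterSystem (M.toCoxeterSystem.simple (F.pi t))
    rw [M.toCoxeterSystem.length_simple] at h1
    omega
  obtain ⟨x, hxd⟩ : ∃ x, x = F.fw (w0 M.toCoxeterSystem) := ⟨_, rfl⟩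
  rw [← hxd] at hx
  have hneg : ∀ v : B' →₀ ℝ, (∀ k, 0 ≤ v k) → ∀ k, rho M'.toCoxeterSystem x v k ≤ 0 := by
    intro v hv k
    have e1 : rho M'.toCoxeterSystem x v = v.sum fun t a => a • rho M'.toCoxeterSystem x (Finsupp.single t 1) := by
      conv_lhs => rw [← Finsupp.sum_single v]
      rw [Finsupp.sum, map_sum, Finsupp.sum]
      refine Finset.sum_congr rfl fun t _ => ?_
      rw [← map_smul, Finsupp.smul_single, smul_eq_mul, mul_one]
    rw [e1, Finsupp.sum, Finsupp.finsetSum_apply]
    refine Finset.sum_nonpos fun t _ => ?_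
    rw [Finsupp.smul_apply, smul_eq_mul]
    exact mul_nonpos_of_nonneg_of_nonpos (hv t) (rho_neg M'.toCoxeterSystem x t (hx t) k)
  have hlen : ∀ n, ∀ v : M'.Group, M'.toCoxeterSystem.length v = n →
      M'.toCoxeterSystem.length (x * v) + M'.toCoxeterSystem.length v = M'.toCoxeterSystem.length x := by
    intro n
    induction n with
    | zero =>
      intro v hv
      rw [M'.toCoxeterSystem.length_eq_zero_iff] at hv
      rw [hv, mul_one, M'.toCoxeterSystem.length_one, add_zero]
    | succ n ih =>
      intro v hv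
      have hv1 : v ≠ 1 := by
        rintro rfl
        rw [M'.toCoxeterSystem.length_one] at hv
        omega
      obtain ⟨t, ht⟩ := M'.toCoxeterSystem.exists_rightDescent_of_ne_one hv1
      rw [M'.toCoxeterSystem.isRightDescent_iff] at ht
      obtain ⟨v', hv'⟩ : ∃ v', v' = v * M'.toCoxeterSystem.simple t := ⟨_, rfl⟩
      have e1 : v = v' * M'.toCoxeterSystem.simple t := by
        rw [hv', simple_mul_simple_cancel_right]
      rw [← hv'] at ht
      have h1 := ih v' (by omega)
      have h4 : ¬ M'.toCoxeterSystem.IsRightDescent v' t := by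
        rw [M'.toCoxeterSystem.not_isRightDescent_iff, ← e1]
        omega
      have h5 : M'.toCoxeterSystem.IsRightDescent (x * v') t := by
        by_contra hc
        refine rho_ne M'.toCoxeterSystem (x * v') t (Finsupp.ext fun k => ?_)
        rw [Finsupp.zero_apply]
        refine le_antisymm ?_ (rho_pos M'.toCoxeterSystem (x * v') t hc k)
        rw [map_mul, Module.End.mul_apply]
        exact hneg _ (fun k' => rho_pos M'.toCoxeterSystem v' t h4 k') k
      rw [M'.toCoxeterSystem.isRightDescent_iff, mul_assoc, ← e1] at h5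
      omega
  have hfin := List.finite_length_le B' (M'.toCoxeterSystem.length x)
  have h1 : (Set.univ : Set M'.Group).Finite := by
    refine (hfin.image M'.toCoxeterSystem.wordProd).subset ?_
    intro v _
    obtain ⟨ω, hω, hv⟩ := M'.toCoxeterSystem.exists_isReduced v
    refine ⟨ω, ?_, hv.symm⟩
    have h2 := hlen _ v rfl
    have h3 : M'.toCoxeterSystem.length v = ω.length := by rw [hv]; exact hω.eq
    show ω.length ≤ _
    omega
  exact Set.finite_univ_iff.1 h1

end Fold

end Pool.Agent.H2.UF
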