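import Pool.Agent.H2.UF.Six
import Pool.Agent.H54.BS.Defs

/-!
# [H2 UF FIN] The interface of chapter UF

`b1s`, `fors`: the hypotheses `B1s` and `Fors` of `H54/BS/Defs`.
-/

set_option autoImplicit false

namespace Pool.Agent.H2.UF

open Pool.Agent.H54.BS

theorem b1s : B1s := by
  intro B _ M hfin b c h
  have hbc : b ≠ c := by
    rintro rfl
    rw [M.diagonal] at h
    omega
  exact no_six M hbc (by omega)

theorem fors : Fors := by
  intro B _ M hfin b c h hr
  obtain ⟨U, hb, hc, hU⟩ := bridge M h
  have key : ∀ x, Relation.ReflTransGen (fun x y => 3 ≤ M x y ∧ ¬ (x = b ∧ y = c) ∧ ¬ (x = c ∧ y = b)) b x → x ∈ U := by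
    intro x hx
    induction hx with
    | refl => exact hb
    | @tail y z _ hyz ih =>
      by_contra hz
      have h2 := hU y ih z hz hyz.2.1
      have h3 := hyz.1
      omega
  exact hc (key c hr)

end Pool.Agent.H2.UF
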