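import Pool.Agent.H75.INF.Lia
import Pool.Agent.H2.SPH.Frc

/-!
# [H2 UF FLD] Foldings of Coxeter diagrams: definitions

`Fold M M'`: a map `pi : B' → B` with finite fibres `cp i`, the elements of a fibre have labels `2`, `lam` is a positive vector,
`bal`: the linear map `q : e_t ↦ lam t • e_(pi t)` is compatible with the reflections; `rel`: the products of the generators over the fibres
satisfy the braid relations of `M` in the Artin monoid of `M'`. `fm`, `fa`, `fw`: the homomorphisms of the Artin monoids, the Artin groups and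
the Coxeter groups.
-/

set_option autoImplicit false

namespace Pool.Agent.H2.UF

open CoxeterSystem Pool.H8.CDW Pool.Agent.H52.PAG Pool.Agent.H75.INF Pool.Agent.H2.SPH

/-- foldings -/
structure Fold {B B' : Type} (M : CoxeterMatrix B) (M' : CoxeterMatrix B') where
  /-- the projection -/
  pi : B' → B
  /-- the fibres -/
  cp : B → List B'
  /-- the positive vector -/
  lam : B' → ℝ
  mem : ∀ i t, t ∈ cp i ↔ pi t = i
  nd : ∀ i, (cp i).Nodup
  com : ∀ s t, s ≠ t → pi s = pi t → M' s t = 2
  pos : ∀ t, 0 < lam t
  rel : ∀ i j, M i j ≠ 0 → alt ((cp i).map (ag M')).prod ((cp j).map (ag M')).prod (M i j) =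
    alt ((cp j).map (ag M')).prod ((cp i).map (ag M')).prod (M i j)
  bal : ∀ i t, pi t ≠ i → ((cp i).map fun s => gform M' s (Finsupp.single t (1 : ℝ)) * lam s).sum =
    gform M i (Finsupp.single (pi t) (1 : ℝ)) * lam t

variable {B B' : Type} {M : CoxeterMatrix B} {M' : CoxeterMatrix B'}

/-- the projection of the Artin monoid to the Coxeter group -/
def amc (M : CoxeterMatrix B) : AM M →* M.Group := (toCox M).comp (inc M)

theorem amc_ag (i : B) : amc M (ag M i) = M.toCoxeterSystem.simple i := by
  unfold amc
  rw [MonoidHom.comp_apply, inc_ag, toCox_gen]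
  rfl

/-- a list of pairwise commuting involutions -/
theorem inv_prod {G : Type*} [Group G] {l : List G} (h1 : ∀ x ∈ l, x * x = 1) (h2 : l.Pairwise Commute) :
    l.prod * l.prod = 1 := by
  induction l with
  | nil => rw [List.prod_nil, one_mul]
  | cons a l ih =>
    rw [List.pairwise_cons] at h2
    have h3 : Commute a l.prod := Commute.list_prod_right l a h2.1
    have h4 := ih (fun x hx => h1 x (List.mem_cons_of_mem a hx)) h2.2
    rw [List.prod_cons]
    calc a * l.prod * (a * l.prod) = a * (l.prod * a) * l.prod := by group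
      _ = a * a * (l.prod * l.prod) := by rw [← h3.eq]; group
      _ = 1 := by rw [h1 a List.mem_cons_self, h4, one_mul]

theorem simple_comm {i j : B} (h : M i j = 2) :
    Commute (M.toCoxeterSystem.simple i) (M.toCoxeterSystem.simple j) := by
  have h1 := M.toCoxeterSystem.simple_mul_simple_pow i j
  rw [h, pow_two] at h1
  show M.toCoxeterSystem.simple i * M.toCoxeterSystem.simple j = M.toCoxeterSystem.simple j * M.toCoxeterSystem.simple i
  have h2 : M.toCoxeterSystem.simple i * M.toCoxeterSystem.simple j =
      (M.toCoxeterSystem.simple i * M.toCoxeterSystem.simple j)⁻¹ := eq_inv_of_mul_eq_one_left h1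
  rw [mul_inv_rev, M.toCoxeterSystem.inv_simple, M.toCoxeterSystem.inv_simple] at h2
  exact h2

theorem ag_comm {i j : B} (h : M i j = 2) : Commute (ag M i) (ag M j) := by
  have h1 := ag_rel (M := M) (i := i) (j := j) (by rw [h]; norm_num)
  rw [h] at h1
  change ag M i * (ag M j * 1) = ag M j * (ag M i * 1) at h1
  rw [mul_one, mul_one] at h1
  exact h1

namespace Fold

variable (F : Fold M M')

theorem pair (i : B) : (F.cp i).Pairwise fun s t => M' s t = 2 := by
  refine (F.nd i).imp_of_mem ?_
  intro s t hs ht hne
  exact F.com s t hne (by rw [(F.mem i s).1 hs, (F.mem i t).1 ht])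

/-- the homomorphism of the Artin monoids -/
def fm : AM M →* AM M' := alift (fun i => ((F.cp i).map (ag M')).prod) F.rel

theorem fm_ag (i : B) : F.fm (ag M i) = ((F.cp i).map (ag M')).prod := rfl

/-- the homomorphism of the Artin groups -/
def fa : Art M →* Art M' := lift (fun i => inc M' ((F.cp i).map (ag M')).prod) fun i j h => by
  rw [← map_alt', ← map_alt', F.rel i j h]

theorem fa_gen (i : B) : F.fa (gen M i) = inc M' ((F.cp i).map (ag M')).prod := lift_gen _ _ i

theorem fa_inc (x : AM M) : F.fa (inc M x) = inc M' (F.fm x) := by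
  have h := am_hom_ext (M := M) (f := (F.fa : Art M →* Art M').comp (inc M)) (g := (inc M').comp F.fm) (fun i => by
    rw [MonoidHom.comp_apply, MonoidHom.comp_apply, inc_ag, fa_gen, fm_ag]) x
  exact h

/-- the element of the Coxeter group of a fibre -/
def sw (i : B) : M'.Group := ((F.cp i).map M'.toCoxeterSystem.simple).prod

theorem sw_eq (i : B) : F.sw i = amc M' ((F.cp i).map (ag M')).prod := by
  unfold sw
  rw [map_list_prod, List.map_map]
  rfl

theorem sw_sq (i : B) : F.sw i * F.sw i = 1 := by
  unfold sw
  refine inv_prod ?_ ?_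
  · intro x hx
    obtain ⟨t, _, rfl⟩ := List.mem_map.1 hx
    exact M'.toCoxeterSystem.simple_mul_simple_self t
  · rw [List.pairwise_map]
    exact (F.pair i).imp fun h => simple_comm h

theorem liftable : M.IsLiftable F.sw := by
  intro i j
  by_cases h : M i j = 0
  · rw [h, pow_zero]
  · have h1 := congrArg (amc M') (F.rel i j h)
    rw [map_alt', map_alt', ← sw_eq, ← sw_eq, alt_eq_pow (F.sw_sq i) (F.sw_sq j)] at h1
    exact mul_eq_right.1 h1

/-- the homomorphism of the Coxeter groups -/
def fw : M.Group →* M'.Group := M.toCoxeterSystem.lift ⟨F.sw, F.liftable⟩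

theorem fw_simple (i : B) : F.fw (M.toCoxeterSystem.simple i) = ((F.cp i).map M'.toCoxeterSystem.simple).prod :=
  M.toCoxeterSystem.lift_apply_simple F.liftable i

end Fold

end Pool.Agent.H2.UF
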