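import Pool.Agent.H2.UF.Dsc
import Pool.Agent.H2.SPH.Frc

/-!
# [H2 UF INV] The inverse image of a maximal parabolic subgroup

(1) `big`: every `g : AM M` is `tau w * h` with `w` of maximal length among the simple left divisors: `w = alpha cs g` is not needed, take `w` with `tau w ∣ g` and `ℓ w` maximal (`ln_tau`, `ln_of_dvd`:
`ℓ w ≤ ln g`). Then every atom `ag j ∣ h` is a right descent of `w` (otherwise `tau (w s_j) = tau w * ag j ∣ g`, `tau_mul`, `tau_simple`).
(2) `star` (for `M'`, finite type): if every atom `ag j ∣ h` is a right descent of `x` and `ag t ∣ tau x * h` then `t` is a left descent of `x`. Proof. Suppose not. `exists_lcm` for `ag t` and `tau x` (both divide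
`tau x * h`): `L = tau x * z`, `z ∣ h` (`L ∣ tau x * h`, cancel: `dvd_cancel`). `z ≠ 1` (otherwise `ag t ∣ tau x`, `t` would be a left descent: `(#)`). Let `ag j ∣ z`. `L ∣ dl cs'` (`IsLcm.min`, `ag_dvd_dl`, `tau_dvd_dl`), so
`tau x * ag j ∣ dl cs'`, so `(##)` `j` is not a right descent of `x`. But `ag j ∣ h`. Contradiction.
`(#)` `dvd_tau`: `ag t ∣ tau x` implies that `t` is a left descent of `x`: if not then `tau (s_t x) = ag t * tau x` is simple; write `tau x = ag t * y`; `ag t * ag t * y ∣ dl`; it is enough to know: `(*)` `tau u * ag j ∣ dl` implies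
`ℓ (u s_j) = ℓ u + 1`. For `(*)`: `act` / `alpha`: `alpha cs (dl) = w0`; or: `tau x * y' = dl`, `ln`; the image in the Coxeter group: `amc (dl) = w0`, if `u s_j < u`, `u = u' s_j`, `dl = tau u' * ag j * ag j * y`, the image in `W`
is `u' * amc y` of length at most `ln y + ℓ u' = ln dl - 2 = ℓ w0 - 2`: a contradiction (`ℓ (amc y) ≤ ln y`, `amc (tau w) = w`). Good: use only this argument, also for `(#)`: `tau x ∣ dl`, `ag t ∣ tau x`: `tau x = ag t * y`, `x = s_t * amc y`,
`ℓ (s_t x) = ℓ (amc y) ≤ ln y = ℓ x - 1`. And `(##)`: `tau x * ag j ∣ dl`: `dl = tau x * ag j * y`, `w0 = x s_j amc y`, `ℓ w0 = ln dl = ℓ x + 1 + ln y`, so `ℓ (x s_j) ≥ ℓ x + 1`.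
(3) `dvd_of_dvd`: strong induction on `ln g`: `g = tau w * h` as in (1) with `w ≠ 1` if `g ≠ 1` (`g = 1`: `ag t ∣ 1` is impossible by `ln`). `F.fm g = tau (F.fw w) * F.fm h` (`fm_tau`). Atoms `ag t' ∣ F.fm h`: by induction
`ag (pi t') ∣ h`, so `pi t'` is a right descent of `w`, so `t'` of `F.fw w` (`desc_iff`). `star`: `t` is a left descent of `F.fw w`, so `pi t` of `w` (`desc_iff_left`), `ag (pi t) ∣ tau w ∣ g`.
(4) `inX_fm`: `InX X' (F.fm g)` implies `InX X g` if `pi t ∈ X` for all `t ∈ X'`.. precisely: for `t : B'`: `InX {t}ᶜ (F.fm g) → InX {pi t}ᶜ g`: induction on `g` (`am_ind`, `inX_mul`): for `ag i`, `i = pi t`: `t ∈ cp i`, so `ag t`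
is a factor of `F.fm (ag i)`, so `t ∈ {t}ᶜ`: absurd.
(5) `mem_of_mem`: `g ∈ ap M univ`, `frac_red`: `g = (inc a)⁻¹ inc b` without common atoms, `F.fa g = (inc (fm a))⁻¹ inc (fm b)` (`fa_inc`) without common atoms by (3). `frac_red` for `F.fa g ∈ ap M' {t}ᶜ` and `frac_uniq`:
`InX {t}ᶜ (fm a)`, `InX {t}ᶜ (fm b)`; (4), `inc_mem`.
(6) `mem_ap`: `ap_induction` or `Subgroup.closure_induction`: `F.fa (gen i)` is the product of `gen t`, `t ∈ cp i`, `pi t = i`.
-/

set_option autoImplicit false

namespace Pool.Agent.H2.UF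

open CoxeterSystem Pool.H8.CDW Pool.Agent.H52.PAG Pool.Agent.H75.INF Pool.Agent.H2.SPH

variable {B B' : Type} {M : CoxeterMatrix B} {M' : CoxeterMatrix B'}

private theorem amc_tau (w : M.Group) : amc M (tau M.toCoxeterSystem w) = w := by
  obtain ⟨ω, h1, rfl⟩ := M.toCoxeterSystem.exists_isReduced w
  rw [tau_eq _ h1, map_list_prod, List.map_map]
  have h2 : (⇑(amc M) ∘ ag M) = M.toCoxeterSystem.simple := funext fun i => amc_ag i
  rw [h2]
  rfl

private theorem len_amc (y : AM M) : M.toCoxeterSystem.length (amc M y) ≤ ln y := by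
  induction y using am_ind with
  | h1 =>
    rw [map_one, M.toCoxeterSystem.length_one]
    exact Nat.zero_le _
  | h i x ih =>
    rw [map_mul, amc_ag, ln_mul, ln_ag]
    have h1 := M.toCoxeterSystem.length_mul_le (M.toCoxeterSystem.simple i) (amc M x)
    rw [M.toCoxeterSystem.length_simple] at h1
    omega

private theorem big (g : AM M) : ∃ (w : M.Group) (h : AM M), g = tau M.toCoxeterSystem w * h ∧
    ∀ j, ag M j ∣ h → M.toCoxeterSystem.IsRightDescent w j := by
  have key : ∀ (n : ℕ) (w : M.Group) (h : AM M), ln h = n → g = tau M.toCoxeterSystem w * h →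
      ∃ (w : M.Group) (h : AM M), g = tau M.toCoxeterSystem w * h ∧
        ∀ j, ag M j ∣ h → M.toCoxeterSystem.IsRightDescent w j := by
    intro n
    induction n with
    | zero =>
      intro w h hn hg
      refine ⟨w, h, hg, fun j hj => ?_⟩
      have h1 := ln_of_dvd hj
      rw [ln_ag] at h1
      omega
    | succ n ih =>
      intro w h hn hg
      by_cases hex : ∀ j, ag M j ∣ h → M.toCoxeterSystem.IsRightDescent w j
      · exact ⟨w, h, hg, hex⟩
      · push Not at hex
        obtain ⟨j, ⟨h', rfl⟩, hj⟩ := hex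
        rw [ln_mul, ln_ag] at hn
        have h1 : M.toCoxeterSystem.length (w * M.toCoxeterSystem.simple j) = M.toCoxeterSystem.length w + 1 :=
          (M.toCoxeterSystem.not_isRightDescent_iff).1 hj
        refine ih (w * M.toCoxeterSystem.simple j) h' (by omega) ?_
        rw [tau_mul (by rw [M.toCoxeterSystem.length_simple]; exact h1), tau_simple, hg, mul_assoc]
  exact key _ 1 g rfl (by rw [tau_one, one_mul])

private theorem desc_of_dvd {x : M.Group} {t : B} (h : ag M t ∣ tau M.toCoxeterSystem x) :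
    M.toCoxeterSystem.IsLeftDescent x t := by
  obtain ⟨y, hy⟩ := h
  have h1 := congrArg (amc M) hy
  rw [amc_tau, map_mul, amc_ag] at h1
  have h2 := congrArg ln hy
  rw [ln_tau, ln_mul, ln_ag] at h2
  have h3 := len_amc y
  unfold CoxeterSystem.IsLeftDescent
  have h4 : M.toCoxeterSystem.simple t * x = amc M y := by
    rw [h1, M.toCoxeterSystem.simple_mul_simple_cancel_left]
  rw [h4]
  omega

private theorem not_desc [Finite M.Group] {x : M.Group} {j : B}
    (h : tau M.toCoxeterSystem x * ag M j ∣ dl M.toCoxeterSystem) : ¬ M.toCoxeterSystem.IsRightDescent x j := by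
  obtain ⟨y, hy⟩ := h
  have h1 := congrArg (amc M) hy
  have h2 := congrArg ln hy
  unfold dl at h1 h2
  rw [amc_tau, map_mul, map_mul, amc_tau, amc_ag] at h1
  rw [ln_tau, ln_mul, ln_mul, ln_tau, ln_ag] at h2
  have h3 := len_amc y
  have h4 := M.toCoxeterSystem.length_mul_le (x * M.toCoxeterSystem.simple j) (amc M y)
  rw [← h1] at h4
  unfold CoxeterSystem.IsRightDescent
  omega

private theorem star [Finite M.Group] {x : M.Group} {h : AM M} {t : B}
    (hx : ∀ j, ag M j ∣ h → M.toCoxeterSystem.IsRightDescent x j)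
    (ht : ag M t ∣ tau M.toCoxeterSystem x * h) : M.toCoxeterSystem.IsLeftDescent x t := by
  obtain ⟨L, hL⟩ := exists_lcm M.toCoxeterSystem ht (Dvd.intro h rfl : tau M.toCoxeterSystem x ∣ _)
  obtain ⟨z, hz⟩ := hL.r
  have h1 : z ∣ h := dvd_cancel M.toCoxeterSystem (g := tau M.toCoxeterSystem x)
    (by rw [← hz]; exact hL.min _ ht (Dvd.intro h rfl))
  by_cases hz1 : z = 1
  · rw [hz1, mul_one] at hz
    exact desc_of_dvd (hz ▸ hL.l)
  · exfalso
    obtain ⟨j, z', hz'⟩ := exists_ag_of_ne hz1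
    have h2 : ag M j ∣ z := Dvd.intro z' hz'.symm
    refine not_desc (x := x) (j := j) ?_ (hx j (h2.trans h1))
    have h3 : tau M.toCoxeterSystem x * ag M j ∣ L := by
      rw [hz]
      exact dvd_mul_of_dvd h2
    exact h3.trans (hL.min _ (ag_dvd_dl _ t) (tau_dvd_dl _ x))

private theorem dvd_of_desc {x : M.Group} {t : B} (h : M.toCoxeterSystem.IsLeftDescent x t) :
    ag M t ∣ tau M.toCoxeterSystem x := by
  have h1 := (M.toCoxeterSystem.isLeftDescent_iff).1 h
  have h2 := tau_mul (cs := M.toCoxeterSystem) (u := M.toCoxeterSystem.simple t) (v := M.toCoxeterSystem.simple t * x)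
    (by rw [M.toCoxeterSystem.simple_mul_simple_cancel_left, M.toCoxeterSystem.length_simple]; omega)
  rw [M.toCoxeterSystem.simple_mul_simple_cancel_left, tau_simple] at h2
  exact Dvd.intro _ h2.symm

private theorem inX_list {X : Set B} {l : List (AM M)} : InX X l.prod ↔ ∀ x ∈ l, InX X x := by
  induction l with
  | nil =>
    rw [List.prod_nil]
    exact ⟨fun _ x hx => absurd hx List.not_mem_nil, fun _ => inX_one X⟩
  | cons a l ih =>
    rw [List.prod_cons, inX_mul, ih, List.forall_mem_cons]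

namespace Fold

variable (F : Fold M M')

theorem dvd_of_dvd [Finite M.Group] [Finite M'.Group] {g : AM M} {t : B'} (h : ag M' t ∣ F.fm g) :
    ag M (F.pi t) ∣ g := by
  have key : ∀ (n : ℕ) (g : AM M) (t : B'), ln g = n → ag M' t ∣ F.fm g → ag M (F.pi t) ∣ g := by
    intro n
    induction n using Nat.strong_induction_on with
    | _ n ih =>
      intro g t hn ht
      by_cases hg1 : g = 1
      · exfalso
        rw [hg1, map_one] at ht
        have h1 := ln_of_dvd ht
        rw [ln_ag, ln_one] at h1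
        omega
      · obtain ⟨w, h, hg, hw⟩ := big g
        have hw1 : w ≠ 1 := by
          rintro rfl
          obtain ⟨j, y, hy⟩ := exists_ag_of_ne hg1
          rw [tau_one, one_mul] at hg
          have h1 := hw j (by rw [← hg, hy]; exact Dvd.intro _ rfl)
          unfold CoxeterSystem.IsRightDescent at h1
          rw [M.toCoxeterSystem.length_one] at h1
          omega
        have h2 : M.toCoxeterSystem.length w ≠ 0 := fun h3 => hw1 (M.toCoxeterSystem.length_eq_zero_iff.1 h3)
        have h3 : ln g = M.toCoxeterSystem.length w + ln h := by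
          rw [hg, ln_mul, ln_tau]
        have h4 : F.fm g = tau M'.toCoxeterSystem (F.fw w) * F.fm h := by
          rw [hg, map_mul, F.fm_tau]
        have h5 : M'.toCoxeterSystem.IsLeftDescent (F.fw w) t := by
          refine star (h := F.fm h) (fun j hj => ?_) (h4 ▸ ht)
          exact (F.desc_iff w j).2 (hw _ (ih (ln h) (by omega) h j rfl hj))
        have h6 := dvd_of_desc ((F.desc_iff_left w t).1 h5)
        rw [hg]
        exact h6.trans (Dvd.intro _ rfl)
  exact key _ g t rfl h

private theorem inX_fm {t : B'} {g : AM M} (h : InX ({t}ᶜ : Set B') (F.fm g)) : InX ({F.pi t}ᶜ : Set B) g := by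
  induction g using am_ind with
  | h1 => exact inX_one _
  | h i x ih =>
    rw [map_mul, inX_mul] at h
    refine inX_mul.2 ⟨inX_ag.2 ?_, ih h.2⟩
    intro hi
    have hi' : i = F.pi t := hi
    have h1 := h.1
    rw [F.fm_ag, inX_list] at h1
    have h2 := inX_ag.1 (h1 (ag M' t) (List.mem_map.2 ⟨t, (F.mem i t).2 hi'.symm, rfl⟩))
    exact h2 rfl

theorem mem_of_mem [Finite M.Group] [Finite M'.Group] {g : Art M} {t : B'} (h : F.fa g ∈ ap M' ({t}ᶜ : Set B')) :
    g ∈ ap M ({F.pi t}ᶜ : Set B) := by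
  obtain ⟨a, b, -, -, hg, hab⟩ := frac_red M.toCoxeterSystem (X := Set.univ) (x := g) (by rw [ap_univ]; trivial)
  obtain ⟨c, d, hc, hd, hg', hcd⟩ := frac_red M'.toCoxeterSystem h
  have h1 : F.fa g = (inc M' (F.fm a))⁻¹ * inc M' (F.fm b) := by
    rw [hg, map_mul, map_inv, F.fa_inc, F.fa_inc]
  obtain ⟨h2, h3⟩ := frac_uniq M'.toCoxeterSystem (h1.symm.trans hg')
    (fun t' ht' => hab _ ⟨F.dvd_of_dvd ht'.1, F.dvd_of_dvd ht'.2⟩) hcd
  rw [hg]
  exact mul_mem (inv_mem (inc_mem (F.inX_fm (h2 ▸ hc)))) (inc_mem (F.inX_fm (h3 ▸ hd)))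

theorem mem_ap {K : Set B} {g : Art M} (h : g ∈ ap M K) : F.fa g ∈ ap M' (F.pi ⁻¹' K) := by
  have h1 : ap M K ≤ (ap M' (F.pi ⁻¹' K)).comap F.fa := by
    refine (Subgroup.closure_le _).2 ?_
    rintro _ ⟨i, hi, rfl⟩
    show F.fa (gen M i) ∈ ap M' (F.pi ⁻¹' K)
    rw [F.fa_gen]
    refine inc_mem (inX_list.2 fun x hx => ?_)
    obtain ⟨t, ht, rfl⟩ := List.mem_map.1 hx
    refine inX_ag.2 ?_
    show F.pi t ∈ K
    rw [(F.mem i t).1 ht]
    exact hi
  exact h1 h

end Fold

end Pool.Agent.H2.UF
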