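import Pool.Agent.H2.UF.Fld
import Pool.Agent.H2.UF.Brd

/-!
# [H2 UF MTX] The unfolded matrices for the labels 4 and 5

`Mx M b c V` on `B ⊕ V`: two copies of the elements of `V`, one copy of the others; the pair `b`, `c` is replaced by the path `inl b - inl c - inr b - inr c` (as far as the elements exist), all other pairs in the same copy keep their label, all other pairs in different
copies have the label `2`. `U` is the side of `b` of the bridge `b - c`. Label `4`: `V = U` (so `c ∉ V`). Label `5`: `V = univ`.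
`pi = Sum.elim id Subtype.val`, `cp i = if h : i ∈ V then [inl i, inr ⟨i, h⟩] else [inl i]`.
`lam`, label `4`: `inl i ↦ 1` for `i ∈ U`, `√2` for `i ∉ U`; `inr i ↦ 1`. Label `5`, `τ = Real.goldenRatio`: `inl i ↦ 1` for `i ∈ U`, `τ` for `i ∉ U`; `inr i ↦ τ` for `i ∈ U`, `1` for `i ∉ U`.
`rel`: `i = j`: clear. `{i, j} = {b, c}`: `br4` (the words are `(x₁ * x₂ * 1)`, simp), `br5` (and symmetric), with `ag_rel` for the label `3` and for the label `2`. Otherwise, both in `V`: `alt_mul` and `ag_rel` in each copy (different copies commute: `(i, j) ≠ (c, b)`, `(b, c)`). One in `V`, the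
other not (label `4`): `M i j = 2` by `hU`, all three generators commute. Both not in `V`: `ag_rel`.
`bal` (`gform M' s (single t 1) = - cos (π / M' s t)`, `c1_gform_single`; `cos (π / 3) = 1/2`, `cos (π / 2) = 0`, `cos (π / 4) = √2 / 2`, `cos (π / 5) = (1 + √5) / 4 = τ / 2` (`Real.cos_pi_div_five`)); let `j = pi t`, `i ≠ j`.
 `t = inl j`: `{i, j} ≠ {b, c}`: the term of `inl i` is `gform M i e_j * lam (inl i)`, the term of `inr i` is `0`; if `M i j = 2` all is `0`, otherwise `i`, `j` are on the same side (`hU`), so `lam (inl i) = lam (inl j)`. `i = b`, `j = c`: `- 1/2 lam (inl b) - 1/2 lam (inr b)`: label `4`: `- 1 = - (√2 / 2) √2`;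
 label `5`: `- (1 + τ) / 2 = - (τ / 2) τ`. `i = c`, `j = b`: `- 1/2 lam (inl c)` (and `inr c`: label `2` with `inl b`, `0`): `- √2 / 2`, `- τ / 2`.
 `t = inr j`, `j ∈ V`: `(i, j) = (c, b)`: `- 1/2 lam (inl c)` (and `- 1/2 lam (inr c)` for label `5`): label `4`: `- √2 / 2`; label `5`: `- (τ + 1) / 2 = - (τ / 2) τ`. `(i, j) = (b, c)` (label `5`): `0 - 1/2 lam (inr b) = - τ / 2`. Otherwise: the term of `inl i` is `0`, the term of `inr i` (if `i ∈ V`) is
 `gform M i e_j * lam (inr i)`, same side or label `2`; if `i ∉ V` (label `4`, `j ∈ U`, `i ∉ U`, `(j, i) ≠ (b, c)`): `M j i = 2`.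
-/

set_option autoImplicit false

namespace Pool.Agent.H2.UF

open CoxeterSystem Pool.H8.CDW Pool.Agent.H52.PAG Pool.Agent.H75.INF Pool.Agent.H2.SPH

variable {B : Type}

open Classical in
/-- the entries of the unfolded matrix -/
noncomputable def mxf (M : CoxeterMatrix B) (b c : B) (V : Set B) : B ⊕ V → B ⊕ V → ℕ
  | .inl i, .inl j => if (i = b ∧ j = c) ∨ (i = c ∧ j = b) then 3 else M i j
  | .inr i, .inr j => if (i.1 = b ∧ j.1 = c) ∨ (i.1 = c ∧ j.1 = b) then 3 else M i.1 j.1
  | .inl i, .inr j => if i = c ∧ j.1 = b then 3 else 2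
  | .inr i, .inl j => if i.1 = b ∧ j = c then 3 else 2

/-- the unfolded matrix -/
noncomputable def Mx (M : CoxeterMatrix B) {b c : B} (hbc : b ≠ c) (V : Set B) : CoxeterMatrix (B ⊕ V) where
  M := mxf M b c V
  isSymm := by
    classical
    refine Matrix.IsSymm.ext fun s t => ?_
    rcases s with i | i <;> rcases t with j | j
    · show (if _ then _ else _) = (if _ then _ else _)
      by_cases h : (i = b ∧ j = c) ∨ (i = c ∧ j = b)
      · rw [if_pos h, if_pos (by tauto)]
      · rw [if_neg h, if_neg (by tauto), M.symmetric]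
    · show (if _ then _ else _) = (if _ then _ else _)
      by_cases h : i = c ∧ j.1 = b
      · rw [if_pos h, if_pos ⟨h.2, h.1⟩]
      · rw [if_neg h, if_neg (by tauto)]
    · show (if _ then _ else _) = (if _ then _ else _)
      by_cases h : j = c ∧ i.1 = b
      · rw [if_pos h, if_pos ⟨h.2, h.1⟩]
      · rw [if_neg h, if_neg (by tauto)]
    · show (if _ then _ else _) = (if _ then _ else _)
      by_cases h : (i.1 = b ∧ j.1 = c) ∨ (i.1 = c ∧ j.1 = b)
      · rw [if_pos h, if_pos (by tauto)]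
      · rw [if_neg h, if_neg (by tauto), M.symmetric]
  diagonal := by
    classical
    rintro (i | i)
    · show (if _ then _ else _) = _
      rw [if_neg, M.diagonal]
      rintro (⟨h1, h2⟩ | ⟨h1, h2⟩)
      · exact hbc (h1.symm.trans h2)
      · exact hbc (h2.symm.trans h1)
    · show (if _ then _ else _) = _
      rw [if_neg, M.diagonal]
      rintro (⟨h1, h2⟩ | ⟨h1, h2⟩)
      · exact hbc (h1.symm.trans h2)
      · exact hbc (h2.symm.trans h1)
  off_diagonal := by
    classical
    intro s t hst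
    rcases s with i | i <;> rcases t with j | j
    · show (if _ then _ else _) ≠ _
      split_ifs
      · norm_num
      · exact M.off_diagonal i j fun h => hst (by rw [h])
    · show (if _ then _ else _) ≠ _
      split_ifs <;> norm_num
    · show (if _ then _ else _) ≠ _
      split_ifs <;> norm_num
    · show (if _ then _ else _) ≠ _
      split_ifs
      · norm_num
      · exact M.off_diagonal i.1 j.1 fun h => hst (by rw [Subtype.ext h])

theorem mx_ll (M : CoxeterMatrix B) {b c : B} (hbc : b ≠ c) (V : Set B) :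
    Mx M hbc V (.inl b) (.inl c) = 3 := by
  exact if_pos (Or.inl ⟨rfl, rfl⟩)

theorem mx_lr (M : CoxeterMatrix B) {b c : B} (hbc : b ≠ c) (V : Set B) (hb : b ∈ V) :
    Mx M hbc V (.inr ⟨b, hb⟩) (.inl c) = 3 := by
  exact if_pos ⟨rfl, rfl⟩

/-- `inl c` separates the first copy of `U` from the rest -/
theorem mx_sep (M : CoxeterMatrix B) {b c : B} (hbc : b ≠ c) (V U : Set B) (hb : b ∈ U) (hc : c ∉ U)
    (hU : ∀ i ∈ U, ∀ j, j ∉ U → ¬ (i = b ∧ j = c) → M i j = 2) (i : B) (hi : i ∈ U) (t : B ⊕ V)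
    (ht : t ≠ .inl c) (ht' : ∀ j ∈ U, t ≠ .inl j) : Mx M hbc V (.inl i) t = 2 := by
  rcases t with j | j
  · by_cases hj : j ∈ U
    · exact absurd rfl (ht' j hj)
    · have h1 : ¬ ((i = b ∧ j = c) ∨ (i = c ∧ j = b)) := by
        rintro (⟨-, h2⟩ | ⟨h2, -⟩)
        · exact ht (by rw [h2])
        · exact hc (h2 ▸ hi)
      have h2 : Mx M hbc V (.inl i) (.inl j) = M i j := if_neg h1
      rw [h2]
      exact hU i hi j hj fun h3 => h1 (Or.inl h3)
  · have h1 : ¬ (i = c ∧ j.1 = b) := fun h2 => hc (h2.1 ▸ hi)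
    exact if_neg h1

private theorem mx_a (M : CoxeterMatrix B) {b c : B} (hbc : b ≠ c) (V : Set B) {i j : B}
    (h : ¬ ((i = b ∧ j = c) ∨ (i = c ∧ j = b))) : Mx M hbc V (.inl i) (.inl j) = M i j :=
  if_neg h

private theorem mx_b (M : CoxeterMatrix B) {b c : B} (hbc : b ≠ c) (V : Set B) {i j : V}
    (h : ¬ ((i.1 = b ∧ j.1 = c) ∨ (i.1 = c ∧ j.1 = b))) :
    Mx M hbc V (.inr i) (.inr j) = M i.1 j.1 :=
  if_neg h

private theorem mx_c (M : CoxeterMatrix B) {b c : B} (hbc : b ≠ c) (V : Set B) {i : B} {j : V}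
    (h : ¬ (i = c ∧ j.1 = b)) : Mx M hbc V (.inl i) (.inr j) = 2 :=
  if_neg h

private theorem mx_d (M : CoxeterMatrix B) {b c : B} (hbc : b ≠ c) (V : Set B) {i : V} {j : B}
    (h : ¬ (i.1 = b ∧ j = c)) : Mx M hbc V (.inr i) (.inl j) = 2 :=
  if_neg h

private theorem mx_a' (M : CoxeterMatrix B) {b c : B} (hbc : b ≠ c) (V : Set B) {i j : B}
    (h : (i = b ∧ j = c) ∨ (i = c ∧ j = b)) : Mx M hbc V (.inl i) (.inl j) = 3 :=
  if_pos h

private theorem mx_b' (M : CoxeterMatrix B) {b c : B} (hbc : b ≠ c) (V : Set B) {i j : V}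
    (h : (i.1 = b ∧ j.1 = c) ∨ (i.1 = c ∧ j.1 = b)) : Mx M hbc V (.inr i) (.inr j) = 3 :=
  if_pos h

private theorem mx_c' (M : CoxeterMatrix B) {b c : B} (hbc : b ≠ c) (V : Set B) {i : B} {j : V}
    (h : i = c ∧ j.1 = b) : Mx M hbc V (.inl i) (.inr j) = 3 :=
  if_pos h

private theorem mx_d' (M : CoxeterMatrix B) {b c : B} (hbc : b ≠ c) (V : Set B) {i : V} {j : B}
    (h : i.1 = b ∧ j = c) : Mx M hbc V (.inr i) (.inl j) = 3 :=
  if_pos h

open Classical in
/-- the copies -/
private noncomputable def cpv (V : Set B) (i : B) : List (B ⊕ V) :=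
  if h : i ∈ V then [.inl i, .inr ⟨i, h⟩] else [.inl i]

private theorem cpv_pos {V : Set B} {i : B} (h : i ∈ V) : cpv V i = [.inl i, .inr ⟨i, h⟩] :=
  dif_pos h

private theorem cpv_neg {V : Set B} {i : B} (h : i ∉ V) : cpv V i = [.inl i] :=
  dif_neg h

private theorem cpv_mem (V : Set B) (i : B) (t : B ⊕ V) :
    t ∈ cpv V i ↔ Sum.elim id Subtype.val t = i := by
  by_cases h : i ∈ V
  · rw [cpv_pos h]
    rcases t with j | j
    · simp
    · simp [Subtype.ext_iff]
  · rw [cpv_neg h]
    rcases t with j | j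
    · simp
    · simp only [List.mem_singleton, reduceCtorEq, Sum.elim_inr, false_iff]
      intro h1
      exact h (h1 ▸ j.2)

private theorem cpv_nd (V : Set B) (i : B) : (cpv V i).Nodup := by
  by_cases h : i ∈ V
  · rw [cpv_pos h]
    simp
  · rw [cpv_neg h]
    simp

private theorem mx_com (M : CoxeterMatrix B) {b c : B} (hbc : b ≠ c) (V : Set B) (s t : B ⊕ V)
    (hst : s ≠ t) (h : (Sum.elim id Subtype.val s : B) = Sum.elim id Subtype.val t) :
    Mx M hbc V s t = 2 := by
  rcases s with i | i <;> rcases t with j | j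
  · exact absurd (congrArg Sum.inl h) hst
  · refine mx_c M hbc V ?_
    rintro ⟨h1, h2⟩
    have h3 : i = j.1 := h
    exact hbc (h2.symm.trans (h3.symm.trans h1))
  · refine mx_d M hbc V ?_
    rintro ⟨h1, h2⟩
    have h3 : i.1 = j := h
    exact hbc (h1.symm.trans (h3.trans h2))
  · exact absurd (congrArg Sum.inr (Subtype.ext h)) hst

private theorem rel3 {B' : Type} {M' : CoxeterMatrix B'} {s t : B'} (h : M' s t = 3) :
    ag M' s * ag M' t * ag M' s = ag M' t * ag M' s * ag M' t := by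
  have h1 := ag_rel (M := M') (i := s) (j := t) (by rw [h]; norm_num)
  rw [h] at h1
  change ag M' s * (ag M' t * (ag M' s * 1)) = ag M' t * (ag M' s * (ag M' t * 1)) at h1
  rw [mul_one, mul_one, ← mul_assoc, ← mul_assoc] at h1
  exact h1

/-- the relations which do not come from the bridge -/
private theorem mx_rel (M : CoxeterMatrix B) {b c : B} (hbc : b ≠ c) (V : Set B) {i j : B}
    (h : ¬ ((i = b ∧ j = c) ∨ (i = c ∧ j = b)))
    (hV : i ∈ V → j ∉ V → M i j = 2) (hV' : i ∉ V → j ∈ V → M i j = 2) (h0 : M i j ≠ 0) :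
    alt ((cpv V i).map (ag (Mx M hbc V))).prod ((cpv V j).map (ag (Mx M hbc V))).prod (M i j) =
    alt ((cpv V j).map (ag (Mx M hbc V))).prod ((cpv V i).map (ag (Mx M hbc V))).prod (M i j) := by
  have hll : alt (ag (Mx M hbc V) (.inl i)) (ag (Mx M hbc V) (.inl j)) (M i j) =
      alt (ag (Mx M hbc V) (.inl j)) (ag (Mx M hbc V) (.inl i)) (M i j) := by
    have h1 := ag_rel (M := Mx M hbc V) (i := .inl i) (j := .inl j)
      (by rw [mx_a M hbc V h]; exact h0)
    rw [mx_a M hbc V h] at h1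
    exact h1
  by_cases hi : i ∈ V
  · by_cases hj : j ∈ V
    · rw [cpv_pos hi, cpv_pos hj]
      simp only [List.map_cons, List.map_nil, List.prod_cons, List.prod_nil, mul_one]
      have hrr : alt (ag (Mx M hbc V) (.inr ⟨i, hi⟩)) (ag (Mx M hbc V) (.inr ⟨j, hj⟩)) (M i j) =
          alt (ag (Mx M hbc V) (.inr ⟨j, hj⟩)) (ag (Mx M hbc V) (.inr ⟨i, hi⟩)) (M i j) := by
        have h2 := mx_b M hbc V (i := ⟨i, hi⟩) (j := ⟨j, hj⟩) h
        have h1 := ag_rel (M := Mx M hbc V) (i := .inr ⟨i, hi⟩) (j := .inr ⟨j, hj⟩)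
          (by rw [h2]; exact h0)
        rw [h2] at h1
        exact h1
      have c1 : Commute (ag (Mx M hbc V) (.inl i)) (ag (Mx M hbc V) (.inr ⟨i, hi⟩)) :=
        ag_comm (mx_com M hbc V _ _ (by simp) rfl)
      have c2 : Commute (ag (Mx M hbc V) (.inl j)) (ag (Mx M hbc V) (.inr ⟨j, hj⟩)) :=
        ag_comm (mx_com M hbc V _ _ (by simp) rfl)
      have c3 : Commute (ag (Mx M hbc V) (.inl i)) (ag (Mx M hbc V) (.inr ⟨j, hj⟩)) :=
        ag_comm (mx_c M hbc V fun h1 => h (Or.inr h1))
      have c4 : Commute (ag (Mx M hbc V) (.inl j)) (ag (Mx M hbc V) (.inr ⟨i, hi⟩)) :=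
        ag_comm (mx_c M hbc V fun h1 => h (Or.inl ⟨h1.2, h1.1⟩))
      rw [alt_mul c1 c3 c4 c2, alt_mul c2 c4 c3 c1, hll, hrr]
    · rw [cpv_pos hi, cpv_neg hj, hV hi hj]
      simp only [List.map_cons, List.map_nil, List.prod_cons, List.prod_nil, mul_one]
      have c1 : Commute (ag (Mx M hbc V) (.inl i)) (ag (Mx M hbc V) (.inl j)) :=
        ag_comm (by rw [mx_a M hbc V h, hV hi hj])
      have c2 : Commute (ag (Mx M hbc V) (.inr ⟨i, hi⟩)) (ag (Mx M hbc V) (.inl j)) :=
        ag_comm (mx_d M hbc V fun h1 => h (Or.inl h1))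
      have c3 := c1.mul_left c2
      show _ * (_ * 1) = _ * (_ * 1)
      rw [mul_one, mul_one]
      exact c3
  · by_cases hj : j ∈ V
    · rw [cpv_neg hi, cpv_pos hj, hV' hi hj]
      simp only [List.map_cons, List.map_nil, List.prod_cons, List.prod_nil, mul_one]
      have c1 : Commute (ag (Mx M hbc V) (.inl i)) (ag (Mx M hbc V) (.inl j)) :=
        ag_comm (by rw [mx_a M hbc V h, hV' hi hj])
      have c2 : Commute (ag (Mx M hbc V) (.inl i)) (ag (Mx M hbc V) (.inr ⟨j, hj⟩)) :=
        ag_comm (mx_c M hbc V fun h1 => h (Or.inr h1))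
      have c3 := c1.mul_right c2
      show _ * (_ * 1) = _ * (_ * 1)
      rw [mul_one, mul_one]
      exact c3
    · rw [cpv_neg hi, cpv_neg hj]
      simp only [List.map_cons, List.map_nil, List.prod_cons, List.prod_nil, mul_one]
      exact hll

/-- the entry of the form -/
private noncomputable def gg (m : ℕ) : ℝ := if m = 0 then -1 else - Real.cos (Real.pi / m)

private theorem gg2 : gg 2 = 0 := by
  unfold gg
  rw [if_neg (by norm_num)]
  push_cast
  rw [Real.cos_pi_div_two, neg_zero]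

private theorem gg3 : gg 3 = -(1 / 2) := by
  unfold gg
  rw [if_neg (by norm_num)]
  push_cast
  rw [Real.cos_pi_div_three]

private theorem gg4 : gg 4 = -(√2 / 2) := by
  unfold gg
  rw [if_neg (by norm_num)]
  push_cast
  rw [Real.cos_pi_div_four]

private theorem gg5 : gg 5 = -(Real.goldenRatio / 2) := by
  unfold gg
  rw [if_neg (by norm_num)]
  push_cast
  rw [Real.cos_pi_div_five]
  unfold Real.goldenRatio
  ring

private theorem gf {B' : Type} (M' : CoxeterMatrix B') (s t : B') :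
    gform M' s (Finsupp.single t (1 : ℝ)) = gg (M' s t) := by
  rw [c1_gform_single]
  rfl

private theorem sum2 {α : Type} (f : α → ℝ) (x y : α) : (([x, y] : List α).map f).sum = f x + f y := by
  simp

private theorem sum1 {α : Type} (f : α → ℝ) (x : α) : (([x] : List α).map f).sum = f x := by
  simp

theorem exists_fold4 (M : CoxeterMatrix B) {b c : B} (hbc : b ≠ c) (U : Set B) (hb : b ∈ U) (hc : c ∉ U)
    (hU : ∀ i ∈ U, ∀ j, j ∉ U → ¬ (i = b ∧ j = c) → M i j = 2) (h : M b c = 4) :
    ∃ F : Fold M (Mx M hbc U), F.pi = Sum.elim id Subtype.val := by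
  classical
  have h' : M c b = 4 := by rw [M.symmetric]; exact h
  have hUs : ∀ i ∈ U, ∀ j, j ∉ U → ¬ (i = b ∧ j = c) → M j i = 2 := fun i hi j hj h1 => by
    rw [M.symmetric]
    exact hU i hi j hj h1
  refine ⟨{ pi := Sum.elim id Subtype.val
            cp := cpv U
            lam := Sum.elim (fun i => if i ∈ U then 1 else √2) (fun _ => 1)
            mem := cpv_mem U
            nd := cpv_nd U
            com := mx_com M hbc U
            pos := ?_
            rel := ?_
            bal := ?_ }, rfl⟩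
  · rintro (i | i)
    · show 0 < (if i ∈ U then (1 : ℝ) else √2)
      split_ifs
      · exact one_pos
      · positivity
    · exact one_pos
  · have hbr : alt ((cpv U b).map (ag (Mx M hbc U))).prod ((cpv U c).map (ag (Mx M hbc U))).prod 4 =
        alt ((cpv U c).map (ag (Mx M hbc U))).prod ((cpv U b).map (ag (Mx M hbc U))).prod 4 := by
      rw [cpv_pos hb, cpv_neg hc]
      simp only [List.map_cons, List.map_nil, List.prod_cons, List.prod_nil, mul_one]
      exact br4 (rel3 (mx_ll M hbc U)) (rel3 (mx_lr M hbc U hb))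
        (ag_comm (mx_com M hbc U _ _ (by simp) rfl))
    intro i j h0
    by_cases hij : i = j
    · rw [hij]
    by_cases h1 : i = b ∧ j = c
    · rw [h1.1, h1.2, h]
      exact hbr
    by_cases h2 : i = c ∧ j = b
    · rw [h2.1, h2.2, h']
      exact hbr.symm
    exact mx_rel M hbc U (by tauto) (fun hi hj => hU i hi j hj h1)
      (fun hi hj => hUs j hj i hi fun h3 => h2 ⟨h3.2, h3.1⟩) h0
  · have hs2 : √2 * √2 = 2 := Real.mul_self_sqrt (by norm_num)
    rintro i (j | j) hne
    · have hne' : j ≠ i := hne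
      rw [gf]
      show _ = gg (M i j) * (if j ∈ U then (1 : ℝ) else √2)
      by_cases hi : i ∈ U
      · rw [cpv_pos hi, sum2, gf, gf]
        show gg _ * (if i ∈ U then (1 : ℝ) else √2) + gg _ * 1 = _
        rw [if_pos hi]
        by_cases h1 : i = b ∧ j = c
        · obtain ⟨rfl, rfl⟩ := h1
          rw [mx_a' M hbc U (Or.inl ⟨rfl, rfl⟩), mx_d' M hbc U ⟨rfl, rfl⟩, h, gg3, gg4, if_neg hc]
          linarith
        · have h2 : ¬ (i = c ∧ j = b) := fun h3 => hc (h3.1 ▸ hi)
          rw [mx_a M hbc U (by tauto), mx_d M hbc U h1, gg2, zero_mul, add_zero]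
          by_cases hj : j ∈ U
          · rw [if_pos hj]
          · rw [hU i hi j hj h1, gg2, zero_mul, zero_mul]
      · rw [cpv_neg hi, sum1, gf]
        show gg _ * (if i ∈ U then (1 : ℝ) else √2) = _
        rw [if_neg hi]
        by_cases h1 : i = c ∧ j = b
        · obtain ⟨rfl, rfl⟩ := h1
          rw [mx_a' M hbc U (Or.inr ⟨rfl, rfl⟩), h', gg3, gg4, if_pos hb]
          ring
        · have h2 : ¬ (i = b ∧ j = c) := fun h3 => hi (h3.1 ▸ hb)
          rw [mx_a M hbc U (by tauto)]
          by_cases hj : j ∈ U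
          · rw [hUs j hj i hi fun h3 => h1 ⟨h3.2, h3.1⟩, gg2, zero_mul, zero_mul]
          · rw [if_neg hj]
    · have hne' : j.1 ≠ i := hne
      rw [gf]
      show _ = gg (M i j.1) * 1
      by_cases hi : i ∈ U
      · rw [cpv_pos hi, sum2, gf, gf]
        show gg _ * (if i ∈ U then (1 : ℝ) else √2) + gg _ * 1 = _
        have h1 : i ≠ c := fun h3 => hc (h3 ▸ hi)
        have h2 : j.1 ≠ c := fun h3 => hc (h3 ▸ j.2)
        rw [mx_c M hbc U fun h3 => h1 h3.1, mx_b M hbc U (by
          rintro (h3 | h3)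
          · exact h2 h3.2
          · exact h1 h3.1), gg2, zero_mul, zero_add]
      · rw [cpv_neg hi, sum1, gf]
        show gg _ * (if i ∈ U then (1 : ℝ) else √2) = _
        rw [if_neg hi]
        by_cases h1 : i = c ∧ j.1 = b
        · rw [mx_c' M hbc U h1, h1.1, h1.2, h', gg3, gg4]
          ring
        · rw [mx_c M hbc U h1, hUs j.1 j.2 i hi fun h3 => h1 ⟨h3.2, h3.1⟩, gg2, zero_mul, zero_mul]

theorem exists_fold5 (M : CoxeterMatrix B) {b c : B} (hbc : b ≠ c) (U : Set B) (hb : b ∈ U) (hc : c ∉ U)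
    (hU : ∀ i ∈ U, ∀ j, j ∉ U → ¬ (i = b ∧ j = c) → M i j = 2) (h : M b c = 5) :
    ∃ F : Fold M (Mx M hbc (Set.univ : Set B)), F.pi = Sum.elim id Subtype.val := by
  classical
  have h' : M c b = 5 := by rw [M.symmetric]; exact h
  have side : ∀ i j, ¬ ((i = b ∧ j = c) ∨ (i = c ∧ j = b)) → (i ∈ U ↔ j ∈ U) ∨ M i j = 2 := by
    intro i j h1
    by_cases hi : i ∈ U
    · by_cases hj : j ∈ U
      · exact Or.inl ⟨fun _ => hj, fun _ => hi⟩
      · exact Or.inr (hU i hi j hj fun h2 => h1 (Or.inl h2))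
    · by_cases hj : j ∈ U
      · refine Or.inr ?_
        rw [M.symmetric]
        exact hU j hj i hi fun h2 => h1 (Or.inr ⟨h2.2, h2.1⟩)
      · exact Or.inl ⟨fun h2 => absurd h2 hi, fun h2 => absurd h2 hj⟩
  have hu : ∀ i : B, i ∈ (Set.univ : Set B) := Set.mem_univ
  have hτ : Real.goldenRatio * Real.goldenRatio = Real.goldenRatio + 1 := by
    rw [← pow_two]
    exact Real.goldenRatio_sq
  have hτ0 : 0 < Real.goldenRatio := Real.goldenRatio_pos
  refine ⟨{ pi := Sum.elim id Subtype.val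
            cp := cpv Set.univ
            lam := Sum.elim (fun i => if i ∈ U then 1 else Real.goldenRatio)
              (fun i => if i.1 ∈ U then Real.goldenRatio else 1)
            mem := cpv_mem Set.univ
            nd := cpv_nd Set.univ
            com := mx_com M hbc Set.univ
            pos := ?_
            rel := ?_
            bal := ?_ }, rfl⟩
  · rintro (i | i)
    · show 0 < (if i ∈ U then (1 : ℝ) else Real.goldenRatio)
      split_ifs
      · exact one_pos
      · exact hτ0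
    · show 0 < (if i.1 ∈ U then Real.goldenRatio else (1 : ℝ))
      split_ifs
      · exact hτ0
      · exact one_pos
  · have hbr : alt ((cpv Set.univ b).map (ag (Mx M hbc Set.univ))).prod
          ((cpv Set.univ c).map (ag (Mx M hbc Set.univ))).prod 5 =
        alt ((cpv Set.univ c).map (ag (Mx M hbc Set.univ))).prod
          ((cpv Set.univ b).map (ag (Mx M hbc Set.univ))).prod 5 := by
      rw [cpv_pos (hu b), cpv_pos (hu c)]
      simp only [List.map_cons, List.map_nil, List.prod_cons, List.prod_nil, mul_one]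
      exact br5 (rel3 (mx_ll M hbc Set.univ)) (rel3 (mx_c' M hbc Set.univ ⟨rfl, rfl⟩))
        (rel3 (mx_b' M hbc Set.univ (Or.inl ⟨rfl, rfl⟩)))
        (ag_comm (mx_com M hbc Set.univ _ _ (by simp) rfl))
        (ag_comm (mx_c M hbc Set.univ fun h1 => hbc h1.1))
        (ag_comm (mx_com M hbc Set.univ _ _ (by simp) rfl))
    intro i j h0
    by_cases hij : i = j
    · rw [hij]
    by_cases h1 : i = b ∧ j = c
    · rw [h1.1, h1.2, h]
      exact hbr
    by_cases h2 : i = c ∧ j = b
    · rw [h2.1, h2.2, h']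
      exact hbr.symm
    exact mx_rel M hbc Set.univ (by tauto) (fun _ hj => absurd (hu j) hj)
      (fun hi _ => absurd (hu i) hi) h0
  · rintro i (j | j) hne
    · have hne' : j ≠ i := hne
      rw [gf, cpv_pos (hu i), sum2, gf, gf]
      show gg _ * (if i ∈ U then (1 : ℝ) else Real.goldenRatio) +
        gg _ * (if i ∈ U then Real.goldenRatio else (1 : ℝ)) =
        gg (M i j) * (if j ∈ U then (1 : ℝ) else Real.goldenRatio)
      by_cases h1 : i = b ∧ j = c
      · rw [mx_a' M hbc _ (Or.inl h1), mx_d' M hbc _ h1, h1.1, h1.2, h, gg3, gg5, if_pos hb, if_pos hb,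
          if_neg hc]
        linarith
      by_cases h2 : i = c ∧ j = b
      · rw [mx_a' M hbc _ (Or.inr h2), mx_d M hbc _ h1, h2.1, h2.2, h', gg2, gg3, gg5, if_pos hb,
          if_neg hc]
        ring
      rw [mx_a M hbc _ (by tauto), mx_d M hbc _ h1, gg2, zero_mul, add_zero]
      rcases side i j (by tauto) with h3 | h3
      · by_cases hi : i ∈ U
        · rw [if_pos hi, if_pos (h3.1 hi)]
        · rw [if_neg hi, if_neg fun h4 => hi (h3.2 h4)]
      · rw [h3, gg2, zero_mul, zero_mul]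
    · have hne' : j.1 ≠ i := hne
      rw [gf, cpv_pos (hu i), sum2, gf, gf]
      show gg _ * (if i ∈ U then (1 : ℝ) else Real.goldenRatio) +
        gg _ * (if i ∈ U then Real.goldenRatio else (1 : ℝ)) =
        gg (M i j.1) * (if j.1 ∈ U then Real.goldenRatio else (1 : ℝ))
      by_cases h1 : i = b ∧ j.1 = c
      · rw [mx_b' M hbc _ (Or.inl h1), mx_c M hbc _ (fun h3 => hbc (h1.1.symm.trans h3.1)), h1.1, h1.2,
          h, gg2, gg3, gg5, if_pos hb, if_pos hb, if_neg hc]
        ring
      by_cases h2 : i = c ∧ j.1 = b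
      · rw [mx_b' M hbc _ (Or.inr h2), mx_c' M hbc _ h2, h2.1, h2.2, h', gg3, gg5, if_pos hb, if_neg hc,
          if_neg hc]
        linarith
      rw [mx_b M hbc (Set.univ : Set B) (i := ⟨i, hu i⟩) (j := j) (by tauto), mx_c M hbc _ h2, gg2,
        zero_mul, zero_add]
      rcases side i j.1 (by tauto) with h3 | h3
      · by_cases hi : i ∈ U
        · rw [if_pos hi, if_pos (h3.1 hi)]
        · rw [if_neg hi, if_neg fun h4 => hi (h3.2 h4)]
      · rw [h3, gg2, zero_mul, zero_mul]

end Pool.Agent.H2.UF
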