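import Pool.Agent.H2.UF.Inv
import Pool.Agent.H2.UF.Cyc
import Pool.Agent.H2.UF.Brg
import Pool.Agent.H2.UF.Mtx
import Pool.Agent.H2.SPH.Sph
import Pool.Agent.H34.TG.Dih

/-!
# [H2 UF SIX] No closed paths of length six for labels at least four in Artin groups of finite type

Labels `4`, `5`: `bridge`, `exists_fold4`, `exists_fold5`, `Fold.fin`, `Fold.mem_of_mem`, `Fold.mem_ap`, `no_four`, `no_cyc`. Labels at least `6`: `alone`, `gir_dih`.
-/

set_option autoImplicit false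

namespace Pool.Agent.H2.UF

open CoxeterSystem Pool.H8.CDW Pool.Agent.H52.PAG Pool.Agent.H75.INF Pool.Agent.H2.SPH Pool.Agent.H34.TG Pool.Agent.H54.TF

theorem gs_fin {B : Type} (M : CoxeterMatrix B) [Finite M.Group] {b c : B} (h : 3 ≤ M b c) :
    GS M Set.univ b c := by
  intro x hx x' hx' y hy y' hy' he
  rw [univ_diff] at hx hx' hy hy'
  have e : y * x' = x⁻¹ * y'⁻¹ := by
    have h1 : x * (y * x') * y' = 1 := by
      rw [← he]
      group
    have h2 : x * (y * x') = y'⁻¹ := eq_inv_of_mul_eq_one_left h1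
    rw [← h2, inv_mul_cancel_left]
  have h3 := no_four M.toCoxeterSystem h (inv_mem hx) hx' hy (inv_mem hy') e
  have e2 : (Set.univ \ {b, c} : Set B) = ({b, c}ᶜ : Set B) := (Set.compl_eq_univ_sdiff _).symm
  rw [e2]
  rcases h3 with h3 | h3
  · left
    have h4 := inv_mem h3
    rwa [inv_inv] at h4
  · exact Or.inr h3

theorem gir_three {B : Type} (M : CoxeterMatrix B) [Finite M.Group] {b c : B} (h : 3 ≤ M b c) :
    Gir (ap M ({b}ᶜ : Set B)) (ap M ({c}ᶜ : Set B)) 3 := by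
  have h1 := gir_of_gs (gs_fin M h)
  rwa [univ_diff, univ_diff] at h1

private theorem six_aux {B : Type} (M : CoxeterMatrix B) [Finite M.Group] {b c : B} (hbc : b ≠ c)
    (U V : Set B) (hb : b ∈ U) (hc : c ∉ U) (hV : b ∈ V) (hU : ∀ i ∈ U, ∀ j, j ∉ U → ¬ (i = b ∧ j = c) → M i j = 2)
    (F : Fold M (Mx M hbc V)) (hF : F.pi = Sum.elim id Subtype.val) [Finite (B ⊕ V)]
    (x y : ℕ → Art M) (hx : ∀ r < 3, x r ∈ ap M ({b}ᶜ : Set B) ∧ x r ∉ ap M ({c}ᶜ : Set B))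
    (hy : ∀ r < 3, y r ∈ ap M ({c}ᶜ : Set B) ∧ y r ∉ ap M ({b}ᶜ : Set B)) : alp x y 3 ≠ 1 := by
  have hfin : Finite (Mx M hbc V).Group := F.fin
  have p1 : F.pi (.inl b) = b := by rw [hF]; rfl
  have p2 : F.pi (.inl c) = c := by rw [hF]; rfl
  have p3 : F.pi (.inr ⟨b, hV⟩) = b := by rw [hF]; rfl
  have down : ∀ (t : B ⊕ V) (g : Art M), F.fa g ∈ ap (Mx M hbc V) ({t}ᶜ : Set (B ⊕ V)) →
      g ∈ ap M ({F.pi t}ᶜ : Set B) := fun t g h => F.mem_of_mem h
  have up : ∀ (t : B ⊕ V) (g : Art M), g ∈ ap M ({F.pi t}ᶜ : Set B) →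
      F.fa g ∈ ap (Mx M hbc V) ({t}ᶜ : Set (B ⊕ V)) := by
    intro t g h
    refine ap_mono ?_ (F.mem_ap h)
    intro s hs hst
    apply hs
    rw [Set.mem_singleton_iff] at hst ⊢
    rw [hst]
  refine no_cyc F.fa (b := b) (c := c) (b1 := .inl b) (c1 := .inl c) (b2 := .inr ⟨b, hV⟩)
    (label_ne_zero (Mx M hbc V).toCoxeterSystem) (by rw [mx_ll]) (gs_fin _ (by rw [mx_ll])) (gs_fin _ (by rw [mx_lr]))
    {t | ∃ i ∈ U, t = .inl i} ⟨b, hb, rfl⟩ ?_ ?_ ?_ ?_ ?_ ?_ ?_ ?_ ?_ x y hx hy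
  · rintro ⟨i, _, h⟩
    exact absurd h (by simp)
  · rintro ⟨i, hi, h⟩
    rw [Sum.inl.injEq] at h
    exact hc (h ▸ hi)
  · rintro _ ⟨i, hi, rfl⟩ j hj hjc
    exact mx_sep M hbc V U hb hc hU i hi j hjc (fun k hk h => hj ⟨k, hk, h⟩)
  · intro g hg
    exact up _ g (by rwa [p1])
  · intro g hg
    exact up _ g (by rwa [p3])
  · intro g hg
    exact up _ g (by rwa [p2])
  · intro g hg
    have h := down _ g hg
    rwa [p1] at h
  · intro g hg
    have h := down _ g hg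
    rwa [p2] at h
  · intro g hg
    have h := down _ g hg
    rwa [p3] at h

theorem no_six {B : Type} [Finite B] (M : CoxeterMatrix B) [Finite M.Group] {b c : B} (hbc : b ≠ c) (h : 4 ≤ M b c) :
    Gir (ap M ({b}ᶜ : Set B)) (ap M ({c}ᶜ : Set B)) 4 := by
  by_cases h6 : 6 ≤ M b c
  · intro x y k h0 h1
    exact gir_dih M hbc (by omega) (fun s hb hc => alone M h6 hb hc)
      (fun s hb hc => alone M (by rw [M.symmetric]; exact h6) hc hb) x y k h0 (by omega)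
  · intro x y k h0 h1 hx hy
    by_cases h3 : k < 3
    · exact gir_three M (by omega) x y k h0 h3 hx hy
    obtain rfl : k = 3 := by omega
    obtain ⟨U, hb, hc, hU⟩ := bridge M (b := b) (c := c) (by omega)
    obtain h4 | h5 : M b c = 4 ∨ M b c = 5 := by omega
    · obtain ⟨F, hF⟩ := exists_fold4 M hbc U hb hc hU h4
      exact six_aux M hbc U U hb hc hb hU F hF x y hx hy
    · obtain ⟨F, hF⟩ := exists_fold5 M hbc U hb hc hU h5
      exact six_aux M hbc U Set.univ hb hc (Set.mem_univ b) hU F hF x y hx hy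

end Pool.Agent.H2.UF
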